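import Pool.Agent.Helper94.FP.GlueGood

/-!
# Parallel edges of the glued drawing
-/

set_option autoImplicit false

namespace Pool.Agent.Helper94.FP

open Pool.Agent.Q238.FP

namespace Glue

/-- A region in one drawing, between the edge `a` and the uncrossed edge `e₀`. -/
theorem side {V E : Type} (G : Data V E) (H : Good G) (e₀ : E) (l : G.len e₀ = 0)
    (hV : ∃ w, w ≠ G.vert (e₀, false) ∧ w ≠ G.vert (e₀, true)) (a : E)
    (ha : ({G.vert (a, false), G.vert (a, true)} : Set V) =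
      {G.vert (e₀, false), G.vert (e₀, true)}) :
    ∃ A : Set G.Dart, (∀ d, G.next d ∈ A ↔ d ∈ A) ∧
      (∀ d, d.1.1 ≠ e₀ → ((d ∈ A ↔ G.rev d ∈ A) ↔ d.1.1 ≠ a)) ∧
      (G.out (e₀, false) ∈ A ↔ e₀ ≠ a) ∧ G.out (e₀, true) ∉ A ∧
      ∃ w, w ≠ G.vert (e₀, false) ∧ w ≠ G.vert (e₀, true) ∧ ∀ x, G.vert x = w → G.out x ∉ A := by
  by_cases hae : a = e₀
  · subst hae
    obtain ⟨w, hw, hw'⟩ := hV
    refine ⟨∅, fun d => Iff.rfl, fun d hd => ?_, ?_, fun h => h, w, hw, hw', fun x _ h => h⟩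
    · simp [hd]
    · simp
  · obtain ⟨A, hn, hr, ⟨v, hv1, hv2, hv3⟩, ⟨w, hw1, hw2, hw3⟩⟩ := H.nonhom e₀ a (Ne.symm hae) ha.symm
    have hp : ¬ (G.out (e₀, false) ∈ A ↔ G.out (e₀, true) ∈ A) := by
      have := hr (G.out (e₀, false))
      rw [← out_eq_rev G l] at this
      rw [this]
      intro h
      exact h.1 rfl
    by_cases hm : G.out (e₀, true) ∈ A
    · refine ⟨Aᶜ, fun d => ?_, fun d hd => ?_, ?_, fun h => h hm, v, hv1, hv2, fun x hx h => h (hv3 x hx)⟩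
      · rw [Set.mem_compl_iff, Set.mem_compl_iff, hn]
      · rw [Set.mem_compl_iff, Set.mem_compl_iff, not_iff_not, hr d]
        simp [hd]
      · rw [Set.mem_compl_iff]
        simp only [hm, iff_true] at hp
        simp only [hp, not_false_eq_true, true_iff]
        exact Ne.symm hae
    · refine ⟨A, hn, fun d hd => ?_, ?_, hm, w, hw1, hw2, hw3⟩
      · rw [hr d]
        simp [hd]
      · simp only [hm, iff_false, not_not] at hp
        simp only [hp, true_iff]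
        exact Ne.symm hae

variable {V₁ E₁ V₂ E₂ : Type} (G₁ : Data V₁ E₁) (G₂ : Data V₂ E₂) (e₁ : E₁) (e₂ : E₂)
  [Finite E₁] [Finite E₂] (h1 : G₁.vert (e₁, false) ≠ G₁.vert (e₁, true))
  (h2 : G₂.vert (e₂, false) ≠ G₂.vert (e₂, true))

/-- what we have to show about two parallel edges -/
def NH {V E : Type} (G : Data V E) (e e' : E) : Prop :=
  ∃ A : Set G.Dart, (∀ d, G.next d ∈ A ↔ d ∈ A) ∧
      (∀ d, (d ∈ A ↔ G.rev d ∈ A) ↔ d.1.1 ≠ e ∧ d.1.1 ≠ e') ∧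
      (∃ v, v ≠ G.vert (e, false) ∧ v ≠ G.vert (e, true) ∧ ∀ x, G.vert x = v → G.out x ∈ A) ∧
      ∃ v, v ≠ G.vert (e, false) ∧ v ≠ G.vert (e, true) ∧ ∀ x, G.vert x = v → G.out x ∉ A

theorem mem_ends {V : Type} {a b c d v : V} (h : ({a, b} : Set V) = {c, d}) (hv : v = c ∨ v = d) :
    v = a ∨ v = b := by
  have : v ∈ ({c, d} : Set V) := by
    rcases hv with rfl | rfl <;> simp
  rw [← h] at this
  simpa using this

theorem NH.symm {V E : Type} {G : Data V E} {e e' : E}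
    (hp : ({G.vert (e, false), G.vert (e, true)} : Set V) =
      {G.vert (e', false), G.vert (e', true)}) (h : NH G e e') : NH G e' e := by
  obtain ⟨A, hn, hr, ⟨v, hv1, hv2, hv3⟩, ⟨w, hw1, hw2, hw3⟩⟩ := h
  have key : ∀ v, v ≠ G.vert (e, false) → v ≠ G.vert (e, true) →
      v ≠ G.vert (e', false) ∧ v ≠ G.vert (e', true) := by
    intro v hv1 hv2
    constructor
    · intro h
      rcases mem_ends hp (Or.inl h) with h | h
      · exact hv1 h
      · exact hv2 h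
    · intro h
      rcases mem_ends hp (Or.inr h) with h | h
      · exact hv1 h
      · exact hv2 h
  refine ⟨A, hn, fun d => ?_, ⟨v, (key v hv1 hv2).1, (key v hv1 hv2).2, hv3⟩,
    ⟨w, (key w hw1 hw2).1, (key w hw1 hw2).2, hw3⟩⟩
  rw [hr d, and_comm]

theorem nonhom11 (H₁ : Good G₁) (l1 : G₁.len e₁ = 0) (l2 : G₂.len e₂ = 0) (e e' : E₁)
    (hne : e ≠ e') (hp : ({G₁.vert (e, false), G₁.vert (e, true)} : Set V₁) =
      {G₁.vert (e', false), G₁.vert (e', true)}) :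
    NH (glue G₁ G₂ e₁ e₂ h1 h2) (Sum.inl e) (Sum.inl e') := by
  obtain ⟨A, hn, hr, ⟨v, hv1, hv2, hv3⟩, ⟨w, hw1, hw2, hw3⟩⟩ := H₁.nonhom e e' hne hp
  -- the vertices
  have hvert : ∀ (B : Set G₁.Dart) (u : V₁), (∀ d, (d ∈ B ↔ G₁.rev d ∈ B) ↔ d.1.1 ≠ e ∧ d.1.1 ≠ e') →
      u ≠ G₁.vert (e, false) → u ≠ G₁.vert (e, true) → (∀ x, G₁.vert x = u → G₁.out x ∈ B) →
      ∀ x, (glue G₁ G₂ e₁ e₂ h1 h2).vert x = Sum.inl u → (glue G₁ G₂ e₁ e₂ h1 h2).out x ∈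
        RR G₁ G₂ e₁ e₂ h1 h2 B {_d | G₁.out (e₁, true) ∈ B} := by
    intro B u hB hu1 hu2 hu
    apply RR_v1
    · exact hu
    · intro hN
      have : G₁.out (e₁, true) ∈ B := by
        rcases hN with hN | hN
        · have h3 : G₁.out (e₁, false) ∈ B := hu _ hN.symm
          have h4 : e₁ ≠ e ∧ e₁ ≠ e' := by
            constructor
            · rintro rfl
              exact hu1 hN
            · rintro rfl
              rcases mem_ends hp (Or.inl hN) with h | h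
              · exact hu1 h
              · exact hu2 h
          rw [out_eq_rev G₁ l1]
          exact ((hB (G₁.out (e₁, false))).2 h4).1 h3
        · exact hu _ hN.symm
      exact ⟨fun _ => this, this⟩
  refine ⟨RR G₁ G₂ e₁ e₂ h1 h2 A {_d | G₁.out (e₁, true) ∈ A}, ?_, ?_, ⟨Sum.inl v, ?_, ?_, ?_⟩,
    ⟨Sum.inl w, ?_, ?_, ?_⟩⟩
  · exact RR_next G₁ G₂ e₁ e₂ h1 h2 l1 l2 hn (fun _ => Iff.rfl)
  · apply RR_rev G₁ G₂ e₁ e₂ h1 h2 l1 l2
    · intro a _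
      rw [hr a]
      simp
    · intro a _
      simp
    · have := hr (G₁.out (e₁, false))
      rw [← out_eq_rev G₁ l1] at this
      simp only [Set.mem_ofPred_eq, this]
      simp [Data.out]
    · simp
  · intro h
    exact hv1 (Sum.inl.inj h)
  · intro h
    exact hv2 (Sum.inl.inj h)
  · exact hvert A v hr hv1 hv2 hv3
  · intro h
    exact hw1 (Sum.inl.inj h)
  · intro h
    exact hw2 (Sum.inl.inj h)
  · intro x hx
    rw [← RR_compl]
    have := hvert Aᶜ w (fun d => by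
      rw [Set.mem_compl_iff, Set.mem_compl_iff, not_iff_not, hr d]) hw1 hw2 hw3 x hx
    exact this

theorem nonhom22 (H₂ : Good G₂) (l1 : G₁.len e₁ = 0) (l2 : G₂.len e₂ = 0) (e e' : E₂)
    (hne : e ≠ e') (hp : ({G₂.vert (e, false), G₂.vert (e, true)} : Set V₂) =
      {G₂.vert (e', false), G₂.vert (e', true)}) :
    NH (glue G₁ G₂ e₁ e₂ h1 h2) (Sum.inr e) (Sum.inr e') := by
  obtain ⟨A, hn, hr, ⟨v, hv1, hv2, hv3⟩, ⟨w, hw1, hw2, hw3⟩⟩ := H₂.nonhom e e' hne hp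
  -- the vertices
  have hvert : ∀ (B : Set G₂.Dart) (u : V₂), (∀ d, (d ∈ B ↔ G₂.rev d ∈ B) ↔ d.1.1 ≠ e ∧ d.1.1 ≠ e') →
      u ≠ G₂.vert (e, false) → u ≠ G₂.vert (e, true) → (∀ x, G₂.vert x = u → G₂.out x ∈ B) →
      ∀ x, (glue G₁ G₂ e₁ e₂ h1 h2).vert x = emb G₁ G₂ e₁ e₂ u →
        (glue G₁ G₂ e₁ e₂ h1 h2).out x ∈
        RR G₁ G₂ e₁ e₂ h1 h2 {_d | G₂.out (e₂, true) ∈ B} B := by
    intro B u hB hu1 hu2 hu
    apply RR_v2
    · exact hu
    · intro hN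
      have : G₂.out (e₂, true) ∈ B := by
        rcases hN with hN | hN
        · have h3 : G₂.out (e₂, false) ∈ B := hu _ hN.symm
          have h4 : e₂ ≠ e ∧ e₂ ≠ e' := by
            constructor
            · rintro rfl
              exact hu1 hN
            · rintro rfl
              rcases mem_ends hp (Or.inl hN) with h | h
              · exact hu1 h
              · exact hu2 h
          rw [out_eq_rev G₂ l2]
          exact ((hB (G₂.out (e₂, false))).2 h4).1 h3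
        · exact hu _ hN.symm
      exact ⟨fun _ => this, this⟩
  refine ⟨RR G₁ G₂ e₁ e₂ h1 h2 {_d | G₂.out (e₂, true) ∈ A} A, ?_, ?_,
    ⟨emb G₁ G₂ e₁ e₂ v, ?_, ?_, ?_⟩, ⟨emb G₁ G₂ e₁ e₂ w, ?_, ?_, ?_⟩⟩
  · exact RR_next G₁ G₂ e₁ e₂ h1 h2 l1 l2 (fun _ => Iff.rfl) hn
  · apply RR_rev G₁ G₂ e₁ e₂ h1 h2 l1 l2
    · intro a _
      simp
    · intro a _
      rw [hr a]
      simp
    · simp
    · have := hr (G₂.out (e₂, false))
      rw [← out_eq_rev G₂ l2] at this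
      simp only [Set.mem_ofPred_eq, this]
      simp [Data.out]
  · intro h
    exact hv1 (emb_inj G₁ G₂ e₁ e₂ h1 h)
  · intro h
    exact hv2 (emb_inj G₁ G₂ e₁ e₂ h1 h)
  · exact hvert A v hr hv1 hv2 hv3
  · intro h
    exact hw1 (emb_inj G₁ G₂ e₁ e₂ h1 h)
  · intro h
    exact hw2 (emb_inj G₁ G₂ e₁ e₂ h1 h)
  · intro x hx
    rw [← RR_compl]
    have := hvert Aᶜ w (fun d => by
      rw [Set.mem_compl_iff, Set.mem_compl_iff, not_iff_not, hr d]) hw1 hw2 hw3 x hx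
    exact this

theorem nonhom12 (H₁ : Good G₁) (H₂ : Good G₂) (l1 : G₁.len e₁ = 0) (l2 : G₂.len e₂ = 0)
    (w1 : ∃ w, w ≠ G₁.vert (e₁, false) ∧ w ≠ G₁.vert (e₁, true))
    (w2 : ∃ w, w ≠ G₂.vert (e₂, false) ∧ w ≠ G₂.vert (e₂, true)) (a : E₁) (b : E₂)
    (hp : ({Sum.inl (G₁.vert (a, false)), Sum.inl (G₁.vert (a, true))} :
      Set (VV (V₁ := V₁) G₂ e₂)) =
      {emb G₁ G₂ e₁ e₂ (G₂.vert (b, false)), emb G₁ G₂ e₁ e₂ (G₂.vert (b, true))}) :
    NH (glue G₁ G₂ e₁ e₂ h1 h2) (Sum.inl a) (Sum.inr b) := by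
  -- the end vertices
  have hb : ∀ c, (G₂.vert (b, c) = G₂.vert (e₂, false) ∨ G₂.vert (b, c) = G₂.vert (e₂, true)) := by
    intro c
    have h3 : emb G₁ G₂ e₁ e₂ (G₂.vert (b, c)) ∈
        ({Sum.inl (G₁.vert (a, false)), Sum.inl (G₁.vert (a, true))} :
          Set (VV (V₁ := V₁) G₂ e₂)) := by
      rw [hp]
      cases c <;> simp
    simp only [Set.mem_insert_iff, Set.mem_singleton_iff] at h3
    rcases h3 with h3 | h3
    · rcases emb_eq_inl _ _ _ _ h3 with ⟨h, -⟩ | ⟨h, -⟩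
      · exact Or.inl h
      · exact Or.inr h
    · rcases emb_eq_inl _ _ _ _ h3 with ⟨h, -⟩ | ⟨h, -⟩
      · exact Or.inl h
      · exact Or.inr h
  have hb' := H₂.loopless b
  have hbs : ({G₂.vert (b, false), G₂.vert (b, true)} : Set V₂) =
      {G₂.vert (e₂, false), G₂.vert (e₂, true)} := by
    rcases hb false with h3 | h3 <;> rcases hb true with h4 | h4
    · exact absurd (h3.trans h4.symm) hb'
    · rw [h3, h4]
    · rw [h3, h4, Set.pair_comm]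
    · exact absurd (h3.trans h4.symm) hb'
  have has : ({G₁.vert (a, false), G₁.vert (a, true)} : Set V₁) =
      {G₁.vert (e₁, false), G₁.vert (e₁, true)} := by
    have h3 : ({emb G₁ G₂ e₁ e₂ (G₂.vert (b, false)), emb G₁ G₂ e₁ e₂ (G₂.vert (b, true))} :
        Set (VV (V₁ := V₁) G₂ e₂)) =
        {Sum.inl (G₁.vert (e₁, false)), Sum.inl (G₁.vert (e₁, true))} := by
      have := congrArg (fun s => emb G₁ G₂ e₁ e₂ '' s) hbs
      simp only [Set.image_pair] at this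
      rw [this, emb_false, emb_true _ _ _ _ h2]
    rw [h3] at hp
    have h4 := congrArg (fun s => Sum.inl ⁻¹' s) hp
    ext v
    have h5 : v ∈ (Sum.inl ⁻¹' ({Sum.inl (G₁.vert (a, false)), Sum.inl (G₁.vert (a, true))} :
        Set (VV (V₁ := V₁) G₂ e₂))) ↔ v ∈ (Sum.inl ⁻¹'
        ({Sum.inl (G₁.vert (e₁, false)), Sum.inl (G₁.vert (e₁, true))} :
        Set (VV (V₁ := V₁) G₂ e₂))) := by
      rw [hp]
    simpa using h5
  obtain ⟨A₁, n1, r1, p1, m1, v, hv1, hv2, hv3⟩ := side G₁ H₁ e₁ l1 w1 a has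
  obtain ⟨A₂, n2, r2, p2, m2, w, hw1, hw2, hw3⟩ := side G₂ H₂ e₂ l2 w2 b hbs
  have hav : ∀ u, u ≠ G₁.vert (e₁, false) → u ≠ G₁.vert (e₁, true) →
      u ≠ G₁.vert (a, false) ∧ u ≠ G₁.vert (a, true) := by
    intro u hu1 hu2
    constructor
    · intro h
      rcases mem_ends has.symm (Or.inl h) with h | h
      · exact hu1 h
      · exact hu2 h
    · intro h
      rcases mem_ends has.symm (Or.inr h) with h | h
      · exact hu1 h
      · exact hu2 h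
  refine ⟨RR G₁ G₂ e₁ e₂ h1 h2 A₁ A₂ᶜ, ?_, ?_, ⟨emb G₁ G₂ e₁ e₂ w, ?_, ?_, ?_⟩,
    ⟨Sum.inl v, ?_, ?_, ?_⟩⟩
  · apply RR_next G₁ G₂ e₁ e₂ h1 h2 l1 l2 n1
    intro d
    rw [Set.mem_compl_iff, Set.mem_compl_iff, n2]
  · apply RR_rev G₁ G₂ e₁ e₂ h1 h2 l1 l2
    · intro d hd
      rw [r1 d hd]
      simp
    · intro d hd
      rw [Set.mem_compl_iff, Set.mem_compl_iff, not_iff_not, r2 d hd]
      simp
    · rw [Set.mem_compl_iff, p1]
      simp [m2]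
    · rw [Set.mem_compl_iff, p2]
      simp only [m1, iff_false, ne_eq, not_not, reduceCtorEq, not_false_eq_true, true_and,
        Sum.inr.injEq]
  · intro h
    change emb G₁ G₂ e₁ e₂ w = Sum.inl (G₁.vert (a, false)) at h
    rcases emb_eq_inl _ _ _ _ h with ⟨h, -⟩ | ⟨h, -⟩
    · exact hw1 h
    · exact hw2 h
  · intro h
    change emb G₁ G₂ e₁ e₂ w = Sum.inl (G₁.vert (a, true)) at h
    rcases emb_eq_inl _ _ _ _ h with ⟨h, -⟩ | ⟨h, -⟩
    · exact hw1 h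
    · exact hw2 h
  · apply RR_v2
    · exact hw3
    · rintro (h | h)
      · exact absurd h hw1
      · exact absurd h hw2
  · intro h
    exact (hav v hv1 hv2).1 (Sum.inl.inj h)
  · intro h
    exact (hav v hv1 hv2).2 (Sum.inl.inj h)
  · intro x hx
    rw [← RR_compl]
    refine RR_v1 G₁ G₂ e₁ e₂ h1 h2 hv3 ?_ x hx
    rintro (h | h)
    · exact absurd h hv1
    · exact absurd h hv2

theorem good [Finite V₁] [Finite V₂] (H₁ : Good G₁) (H₂ : Good G₂) (l1 : G₁.len e₁ = 0)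
    (l2 : G₂.len e₂ = 0) (w1 : ∃ w, w ≠ G₁.vert (e₁, false) ∧ w ≠ G₁.vert (e₁, true))
    (w2 : ∃ w, w ≠ G₂.vert (e₂, false) ∧ w ≠ G₂.vert (e₂, true)) :
    Good (glue G₁ G₂ e₁ e₂ h1 h2) where
  inc := inc G₁ G₂ e₁ e₂ h1 h2 H₁ H₂
  conn := conn G₁ G₂ e₁ e₂ h1 h2 H₁ H₂
  euler := by
    have k1 := card_vert (V₁ := V₁) G₂ e₂ h2
    have k2 := card_cr G₁ G₂ e₁ e₂ h1 h2
    have k3 := card_seg G₁ G₂ e₁ e₂ h1 h2
    have k4 := card_walk G₁ G₂ e₁ e₂ h1 h2 l1 l2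
    have k5 := H₁.euler
    have k6 := H₂.euler
    rw [k2, k3, k4]
    omega
  loopless := loopless G₁ G₂ e₁ e₂ h1 h2 H₁.loopless H₂.loopless
  simple := simple G₁ G₂ e₁ e₂ h1 h2 H₁.simple H₂.simple
  fan := fan G₁ G₂ e₁ e₂ h1 h2 H₁.fan H₂.fan
  nonhom := by
    rintro (e | e) (e' | e') hne hp
    · refine nonhom11 G₁ G₂ e₁ e₂ h1 h2 H₁ l1 l2 e e' (fun h => hne (congrArg _ h)) ?_
      ext v
      have h5 : (Sum.inl v : VV (V₁ := V₁) G₂ e₂) ∈
          ({(glue G₁ G₂ e₁ e₂ h1 h2).vert (Sum.inl e, false),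
            (glue G₁ G₂ e₁ e₂ h1 h2).vert (Sum.inl e, true)} : Set (VV (V₁ := V₁) G₂ e₂)) ↔
          Sum.inl v ∈ ({(glue G₁ G₂ e₁ e₂ h1 h2).vert (Sum.inl e', false),
            (glue G₁ G₂ e₁ e₂ h1 h2).vert (Sum.inl e', true)} : Set (VV (V₁ := V₁) G₂ e₂)) := by
        rw [hp]
      change (Sum.inl v : VV (V₁ := V₁) G₂ e₂) ∈
          ({Sum.inl (G₁.vert (e, false)), Sum.inl (G₁.vert (e, true))} :
            Set (VV (V₁ := V₁) G₂ e₂)) ↔
          Sum.inl v ∈ ({Sum.inl (G₁.vert (e', false)), Sum.inl (G₁.vert (e', true))} :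
            Set (VV (V₁ := V₁) G₂ e₂)) at h5
      simpa using h5
    · exact nonhom12 G₁ G₂ e₁ e₂ h1 h2 H₁ H₂ l1 l2 w1 w2 e e' hp
    · exact (nonhom12 G₁ G₂ e₁ e₂ h1 h2 H₁ H₂ l1 l2 w1 w2 e' e hp.symm).symm hp.symm
    · refine nonhom22 G₁ G₂ e₁ e₂ h1 h2 H₂ l1 l2 e e' (fun h => hne (congrArg _ h)) ?_
      ext v
      have h5 : emb G₁ G₂ e₁ e₂ v ∈
          ({(glue G₁ G₂ e₁ e₂ h1 h2).vert (Sum.inr e, false),
            (glue G₁ G₂ e₁ e₂ h1 h2).vert (Sum.inr e, true)} : Set (VV (V₁ := V₁) G₂ e₂)) ↔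
          emb G₁ G₂ e₁ e₂ v ∈ ({(glue G₁ G₂ e₁ e₂ h1 h2).vert (Sum.inr e', false),
            (glue G₁ G₂ e₁ e₂ h1 h2).vert (Sum.inr e', true)} : Set (VV (V₁ := V₁) G₂ e₂)) := by
        rw [hp]
      change emb G₁ G₂ e₁ e₂ v ∈
          ({emb G₁ G₂ e₁ e₂ (G₂.vert (e, false)), emb G₁ G₂ e₁ e₂ (G₂.vert (e, true))} :
            Set (VV (V₁ := V₁) G₂ e₂)) ↔
          emb G₁ G₂ e₁ e₂ v ∈
          ({emb G₁ G₂ e₁ e₂ (G₂.vert (e', false)), emb G₁ G₂ e₁ e₂ (G₂.vert (e', true))} :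
            Set (VV (V₁ := V₁) G₂ e₂)) at h5
      have hinj : ∀ {a b}, emb G₁ G₂ e₁ e₂ a = emb G₁ G₂ e₁ e₂ b ↔ a = b :=
        fun {a b} => ⟨emb_inj G₁ G₂ e₁ e₂ h1, fun h => by rw [h]⟩
      simp only [Set.mem_insert_iff, Set.mem_singleton_iff, hinj] at h5 ⊢
      exact h5

end Glue

theorem exists_other {V : Type} [Finite V] (h : 3 ≤ Nat.card V) (a b : V) :
    ∃ w, w ≠ a ∧ w ≠ b := by
  classical
  have := Fintype.ofFinite V
  by_contra hc
  push Not at hc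
  have h3 : (Finset.univ : Finset V) ⊆ {a, b} := by
    intro c _
    simp only [Finset.mem_insert, Finset.mem_singleton]
    by_cases hca : c = a
    · exact Or.inl hca
    · exact Or.inr (hc c hca)
  have h4 := Finset.card_le_card h3
  have h5 := Finset.card_le_two (a := a) (b := b)
  rw [Finset.card_univ, ← Nat.card_eq_fintype_card] at h4
  omega

/-- Gluing. -/
theorem Tight.glue {n m n' m' : ℕ} (h : Tight n m) (h' : Tight n' m') (hn : 3 ≤ n)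
    (hn' : 3 ≤ n') : Tight (n + n' - 2) (m + m') := by
  obtain ⟨V₁, E₁, hV₁, hE₁, G₁, e₁, H₁, l1, c1, c1'⟩ := h
  obtain ⟨V₂, E₂, hV₂, hE₂, G₂, e₂, H₂, l2, c2, c2'⟩ := h'
  have h1 := H₁.loopless e₁
  have h2 := H₂.loopless e₂
  refine ⟨_, _, inferInstance, inferInstance, Glue.glue G₁ G₂ e₁ e₂ h1 h2, Sum.inl e₁,
    Glue.good G₁ G₂ e₁ e₂ h1 h2 H₁ H₂ l1 l2 (exists_other (by omega) _ _)
      (exists_other (by omega) _ _), l1, ?_, ?_⟩
  · have := Glue.card_vert (V₁ := V₁) G₂ e₂ h2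
    omega
  · rw [Nat.card_sum, c1', c2']

end Pool.Agent.Helper94.FP
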