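import Pool.Agent.Helper94.FP.Four
import Pool.Agent.Helper94.FP.Small
import Pool.Agent.Helper94.FP.GlueHom
import Pool.Agent.Q238.FP.Final

/-!
# The exact maximum
-/

set_option autoImplicit false

namespace Pool.Agent.Helper94.FP

open Pool.Agent.Q238.FP

theorem tight_all (n : ℕ) (hn : 5 ≤ n) : Tight n (5 * n - 10) := by
  induction n using Nat.strong_induction_on with
  | _ n ih =>
    rcases Nat.lt_or_ge n 8 with h | h
    · rcases (by omega : n = 5 ∨ n = 6 ∨ n = 7) with rfl | rfl | rfl
      · exact tight_five
      · exact tight_six
      · exact tight_seven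
    · have h1 := ih (n - 3) (by omega) (by omega)
      have h2 := h1.glue tight_five (by omega) (by omega)
      have e1 : n - 3 + 5 - 2 = n := by omega
      have e2 : 5 * (n - 3) - 10 + 15 = 5 * n - 10 := by omega
      rwa [e1, e2] at h2

theorem exact (n : ℕ) (hn : 3 ≤ n) :
    IsGreatest {m | Has n m} (if n = 3 then 3 else if n = 4 then 8 else 5 * n - 10) := by
  constructor
  · split_ifs with h3 h4
    · subst h3
      exact tight_three.has
    · subst h4
      exact tight_four.has
    · exact (tight_all n (by omega)).has
  · rintro m ⟨V, E, F, hV, hE, hF, G, h1, h2, h3, h4, h5, h6⟩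
    subst h5
    subst h6
    split_ifs with k3 k4
    · exact card_le_three h1 h4 k3
    · exact card_le_eight h1 h2 h4 k4
    · have := G.card_edges_le h1 h2 h3 h4 hn
      omega

end Pool.Agent.Helper94.FP
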