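import Pool.Agent.Helper94.FP.Good

/-!
# Upper bounds for three and four vertices
-/

set_option autoImplicit false

namespace Pool.Agent.Helper94.FP

open Pool.Agent.Q238.FP

variable {V E F : Type} (G : Drawing V E F)

/-- the unordered pair of end vertices -/
def ends (e : E) : Sym2 V := s(G.vert (e, false), G.vert (e, true))

theorem ends_set {e e' : E} (h : ends G e = ends G e') :
    ({G.vert (e, false), G.vert (e, true)} : Set V) =
      {G.vert (e', false), G.vert (e', true)} := by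
  unfold ends at h
  rcases Sym2.eq_iff.1 h with ⟨h1, h2⟩ | ⟨h1, h2⟩
  · rw [h1, h2]
  · rw [h1, h2, Set.pair_comm]

theorem ends_bool {e : E} {a b : V} (h : ends G e = s(a, b)) :
    ∃ c, G.vert (e, c) = a ∧ G.vert (e, !c) = b := by
  unfold ends at h
  rcases Sym2.eq_iff.1 h with ⟨h1, h2⟩ | ⟨h1, h2⟩
  · exact ⟨false, h1, h2⟩
  · exact ⟨true, h2, h1⟩

/-- every end vertex of `e` is `a` or `b` -/
theorem vert_of_ends {e : E} {a b : V} (h : ends G e = s(a, b)) (c : Bool) :
    G.vert (e, c) = a ∨ G.vert (e, c) = b := by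
  obtain ⟨c', h1, h2⟩ := ends_bool G h
  by_cases hc : c = c'
  · rw [hc]; exact Or.inl h1
  · have : c = !c' := by
      cases c <;> cases c' <;> simp_all
    rw [this]; exact Or.inr h2

variable {G}

theorem face_step {A : Set F} {e e' : E} (hA : G.Region e e' A) (x : Σ e, Fin (G.len e))
    (hx : (G.cr x).1 ≠ e ∧ (G.cr x).1 ≠ e') (b : Bool) :
    G.face (G.leave x b) ∈ A ↔ G.face (G.arr x b) ∈ A := by
  have h1 := G.straight x b
  have h2 := G.face_next (G.rev (G.next (G.arr x b)))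
  rw [h1] at h2
  have h3 := G.face_next (G.arr x b)
  rw [h2, ← h3]
  have h4 := hA (G.next (G.arr x b))
  have h5 : (G.next (G.arr x b)).1.1 = (G.cr x).1 := by
    rw [G.next_arr]
    rfl
  rw [h5] at h4
  exact (h4.2 hx).symm

theorem face_edge {A : Set F} {e e' : E} (hA : G.Region e e' A) {g : E} (hg : g ≠ e ∧ g ≠ e')
    (hc : ∀ i, (G.cr ⟨g, i⟩).1 ≠ e ∧ (G.cr ⟨g, i⟩).1 ≠ e') (d : G.Dart) (hd : d.1.1 = g) :
    G.face d ∈ A ↔ G.face ((⟨g, 0⟩, true) : G.Dart) ∈ A := by
  have key : ∀ (i : ℕ) (hi : i < G.len g + 1), G.face ((⟨g, ⟨i, hi⟩⟩, true) : G.Dart) ∈ A ↔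
      G.face ((⟨g, 0⟩, true) : G.Dart) ∈ A := by
    intro i
    induction i with
    | zero => intro hi; rfl
    | succ i ih =>
      intro hi
      have h1 := ih (by omega)
      have h2 := face_step hA ⟨g, ⟨i, by omega⟩⟩ (hc ⟨i, by omega⟩) true
      rw [G.leave_true, G.arr_true] at h2
      exact h2.trans h1
  rcases d with ⟨⟨g', i⟩, b⟩
  dsimp only at hd
  subst hd
  cases b
  · have h3 := hA ((⟨g', i⟩, true) : G.Dart)
    exact ((h3.2 hg).symm).trans (key i.1 i.2)
  · exact key i.1 i.2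

theorem loc_out {A : Set F} {e e' : E} (hA : G.Region e e' A) {v : V}
    (hv : ∀ b, G.vert (e, b) ≠ v) (hv' : ∀ b, G.vert (e', b) ≠ v) (x : E × Bool)
    (hx : G.vert x = v) : G.face (G.out x) ∈ A ↔ G.loc v ∈ A := by
  obtain ⟨y, hy, hy'⟩ := G.face_loc x
  rw [hx] at hy hy'
  have h1 := sameCycle_inv (σ := G.rot) (f := fun z => G.vert z = v ∧ G.face (G.out z) ∈ A)
    (fun z => by
      apply propext
      rw [G.vert_rot]
      refine and_congr_right fun hz => ?_
      rw [← G.next_rev_out, G.face_next]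
      have h2 := hA (G.out z)
      have h3 : (G.out z).1.1 = z.1 := rfl
      rw [h3] at h2
      refine (h2.2 ⟨?_, ?_⟩).symm
      · intro h4
        apply hv z.2
        rw [← h4]
        exact hz
      · intro h4
        apply hv' z.2
        rw [← h4]
        exact hz) ((G.rot_vert x y).2 (hx.trans hy.symm))
  have h2 := iff_of_eq h1
  rw [hy'] at h2
  simpa [hx, hy] using h2

/-- All faces along `g` are on the side of the end vertex `v` of `g`. -/
theorem edge_loc {A : Set F} {e e' : E} (hA : G.Region e e' A) {g : E} (hg : g ≠ e ∧ g ≠ e')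
    (hc : ∀ i, (G.cr ⟨g, i⟩).1 ≠ e ∧ (G.cr ⟨g, i⟩).1 ≠ e') {v : V}
    (hv : ∀ b, G.vert (e, b) ≠ v) (hv' : ∀ b, G.vert (e', b) ≠ v) {c : Bool}
    (hx : G.vert (g, c) = v) (d : G.Dart) (hd : d.1.1 = g) : G.face d ∈ A ↔ G.loc v ∈ A := by
  rw [face_edge hA hg hc d hd, ← loc_out hA hv hv' (g, c) hx,
    face_edge hA hg hc (G.out (g, c)) rfl]

theorem three_iff1 {a b c : Prop} : ((a ↔ b) ↔ c) ↔ ((¬ a ↔ b) ↔ ¬ c) := by
  by_cases a <;> by_cases b <;> by_cases c <;> simp_all

theorem three_iff2 {a b c : Prop} : ((a ↔ b) ↔ c) ↔ ((¬ a ↔ ¬ b) ↔ c) := by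
  by_cases a <;> by_cases b <;> by_cases c <;> simp_all

theorem three_iff3 {a b c : Prop} : ((a ↔ b) ↔ c) ↔ ((a ↔ ¬ b) ↔ ¬ c) := by
  by_cases a <;> by_cases b <;> by_cases c <;> simp_all

section four

variable (hl : G.Loopless) (hs : G.Simple) (hh : G.NonHomotopic)
  {a b c d : V} (hV : ∀ v, v = a ∨ v = b ∨ v = c ∨ v = d) (hab : a ≠ b) (hac : a ≠ c)
  (had : a ≠ d) (hbc : b ≠ c) (hbd : b ≠ d) (hcd : c ≠ d)

include hh hV in
/-- Two parallel edges between `a` and `b` separate `c` and `d`. -/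
theorem separate {e e' : E} (hne : e ≠ e') (h1 : ends G e = s(a, b)) (h2 : ends G e' = s(a, b)) :
    ∃ A, G.Region e e' A ∧ ((G.loc c ∈ A ∧ G.loc d ∉ A) ∨ (G.loc d ∈ A ∧ G.loc c ∉ A)) := by
  obtain ⟨A, hA, ⟨v, hv1, hv2, hv3⟩, ⟨w, hw1, hw2, hw3⟩⟩ :=
    hh e e' hne (ends_set G (h1.trans h2.symm))
  have key : ∀ u, u ≠ G.vert (e, false) → u ≠ G.vert (e, true) → u = c ∨ u = d := by
    intro u hu hu'
    obtain ⟨β, h3, h4⟩ := ends_bool G h1
    have h5 : u ≠ a := by
      rintro rfl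
      cases β
      · exact hu h3.symm
      · exact hu' h3.symm
    have h6 : u ≠ b := by
      rintro rfl
      cases β
      · exact hu' h4.symm
      · exact hu h4.symm
    rcases hV u with h | h | h | h
    · exact absurd h h5
    · exact absurd h h6
    · exact Or.inl h
    · exact Or.inr h
  refine ⟨A, hA, ?_⟩
  rcases key v hv1 hv2 with rfl | rfl <;> rcases key w hw1 hw2 with rfl | rfl
  · exact absurd hv3 hw3
  · exact Or.inl ⟨hv3, hw3⟩
  · exact Or.inr ⟨hv3, hw3⟩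
  · exact absurd hv3 hw3

include hh hV in
/-- There are at most two parallel edges. -/
theorem no_three {e e' e'' : E} (n1 : e ≠ e') (n2 : e ≠ e'') (n3 : e' ≠ e'')
    (h1 : ends G e = s(a, b)) (h2 : ends G e' = s(a, b)) (h3 : ends G e'' = s(a, b)) : False := by
  obtain ⟨A₁, r1, k1⟩ := separate hh hV n1 h1 h2
  obtain ⟨A₂, r2, k2⟩ := separate hh hV n3 h2 h3
  obtain ⟨A₃, r3, k3⟩ := separate hh hV n2 h1 h3
  have hB := G.conn {f | (f ∈ A₁ ↔ f ∈ A₂) ↔ f ∈ A₃} (fun x => by
    have s1 := r1 x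
    have s2 := r2 x
    have s3 := r3 x
    simp only [Set.mem_ofPred_eq]
    by_cases q1 : x.1.1 = e
    · have q2 : x.1.1 ≠ e' := by rw [q1]; exact n1
      have q3 : x.1.1 ≠ e'' := by rw [q1]; exact n2
      have k1 : ¬ (G.face x ∈ A₁ ↔ G.face (G.rev x) ∈ A₁) := fun h => (s1.1 h).1 q1
      have k2 := s2.2 ⟨q2, q3⟩
      have k3 : ¬ (G.face x ∈ A₃ ↔ G.face (G.rev x) ∈ A₃) := fun h => (s3.1 h).1 q1
      rw [not_iff] at k1 k3
      rw [← k1, ← k2, ← k3]
      exact three_iff1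
    · by_cases q2 : x.1.1 = e'
      · have q3 : x.1.1 ≠ e'' := by rw [q2]; exact n3
        have k1 : ¬ (G.face x ∈ A₁ ↔ G.face (G.rev x) ∈ A₁) := fun h => (s1.1 h).2 q2
        have k2 : ¬ (G.face x ∈ A₂ ↔ G.face (G.rev x) ∈ A₂) := fun h => (s2.1 h).1 q2
        have k3 := s3.2 ⟨q1, q3⟩
        rw [not_iff] at k1 k2
        rw [← k1, ← k2, ← k3]
        exact three_iff2
      · by_cases q3 : x.1.1 = e''
        · have k1 := s1.2 ⟨q1, q2⟩
          have k2 : ¬ (G.face x ∈ A₂ ↔ G.face (G.rev x) ∈ A₂) := fun h => (s2.1 h).2 q3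
          have k3 : ¬ (G.face x ∈ A₃ ↔ G.face (G.rev x) ∈ A₃) := fun h => (s3.1 h).2 q3
          rw [not_iff] at k2 k3
          rw [← k1, ← k2, ← k3]
          exact three_iff3
        · rw [s1.2 ⟨q1, q2⟩, s2.2 ⟨q2, q3⟩, s3.2 ⟨q1, q3⟩])
  have hc : G.loc c ∈ ({f | (f ∈ A₁ ↔ f ∈ A₂) ↔ f ∈ A₃} : Set F) ↔
      G.loc d ∈ ({f | (f ∈ A₁ ↔ f ∈ A₂) ↔ f ∈ A₃} : Set F) := by
    rcases hB with hB | hB
    · rw [hB]; simp
    · rw [hB]; simp
  simp only [Set.mem_ofPred_eq] at hc
  rcases k1 with ⟨k1, k1'⟩ | ⟨k1, k1'⟩ <;> rcases k2 with ⟨k2, k2'⟩ | ⟨k2, k2'⟩ <;>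
    rcases k3 with ⟨k3, k3'⟩ | ⟨k3, k3'⟩ <;> simp [k1, k1', k2, k2', k3, k3'] at hc

include hs in
theorem not_cross {g e : E} {v : V} {β γ : Bool} (h1 : G.vert (g, β) = v) (h2 : G.vert (e, γ) = v)
    (i : Fin (G.len g)) : (G.cr ⟨g, i⟩).1 ≠ e := by
  intro h
  apply hs.1 ⟨g, i⟩ β γ
  rw [h, h2]
  exact h1

include hh hV hac had hbc hbd in
/-- An edge between `c` and `d` crosses one of two parallel edges between `a` and `b`. -/
theorem crosses {e e' f : E} (hne : e ≠ e') (h1 : ends G e = s(a, b)) (h2 : ends G e' = s(a, b))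
    (h3 : ends G f = s(c, d)) : ∃ i, (G.cr ⟨f, i⟩).1 = e ∨ (G.cr ⟨f, i⟩).1 = e' := by
  by_contra hc
  push Not at hc
  obtain ⟨A, hA, hk⟩ := separate hh hV hne h1 h2
  have hf : ∀ e₀, ends G e₀ = s(a, b) → f ≠ e₀ := by
    rintro e₀ h4 rfl
    rw [h3] at h4
    rcases Sym2.eq_iff.1 h4 with ⟨h5, -⟩ | ⟨h5, -⟩
    · exact hac h5.symm
    · exact hbc h5.symm
  have hv : ∀ e₀, ends G e₀ = s(a, b) → ∀ β, G.vert (e₀, β) ≠ c ∧ G.vert (e₀, β) ≠ d := by
    intro e₀ h4 β
    rcases vert_of_ends G h4 β with h5 | h5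
    · rw [h5]; exact ⟨hac, had⟩
    · rw [h5]; exact ⟨hbc, hbd⟩
  obtain ⟨β, h4, h5⟩ := ends_bool G h3
  have k1 := edge_loc hA ⟨hf e h1, hf e' h2⟩ hc (fun β => (hv e h1 β).1)
    (fun β => (hv e' h2 β).1) h4 (⟨f, 0⟩, true) rfl
  have k2 := edge_loc hA ⟨hf e h1, hf e' h2⟩ hc (fun β => (hv e h1 β).2)
    (fun β => (hv e' h2 β).2) h5 (⟨f, 0⟩, true) rfl
  rw [k1] at k2
  tauto

include hs hh hV hab had hbc hcd in
/-- If an edge between `a` and `b` crosses an edge between `c` and `d` then there are no two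
parallel edges between `a` and `c`. -/
theorem no_two {e f g g' : E} (h1 : ends G e = s(a, b)) (h2 : ends G f = s(c, d))
    (i : Fin (G.len f)) (hi : (G.cr ⟨f, i⟩).1 = e) (hne : g ≠ g') (h3 : ends G g = s(a, c))
    (h4 : ends G g' = s(a, c)) : False := by
  have hV' : ∀ v, v = a ∨ v = c ∨ v = b ∨ v = d := by
    intro v
    rcases hV v with h | h | h | h
    · exact Or.inl h
    · exact Or.inr (Or.inr (Or.inl h))
    · exact Or.inr (Or.inl h)
    · exact Or.inr (Or.inr (Or.inr h))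
  obtain ⟨A, hA, hk⟩ := separate hh hV' hne h3 h4
  have key : ∀ g₀, ends G g₀ = s(a, c) → (e ≠ g₀ ∧ f ≠ g₀) ∧
      (∀ i, (G.cr ⟨e, i⟩).1 ≠ g₀) ∧ (∀ i, (G.cr ⟨f, i⟩).1 ≠ g₀) ∧
      (∀ β, G.vert (g₀, β) ≠ b) ∧ (∀ β, G.vert (g₀, β) ≠ d) := by
    intro g₀ h5
    obtain ⟨β, b1, b2⟩ := ends_bool G h1
    obtain ⟨γ, c1, c2⟩ := ends_bool G h2
    obtain ⟨δ, d1, d2⟩ := ends_bool G h5
    refine ⟨⟨?_, ?_⟩, fun i => not_cross hs b1 d1 i, fun i => not_cross hs c1 d2 i, ?_, ?_⟩
    · rintro rfl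
      rw [h1] at h5
      rcases Sym2.eq_iff.1 h5 with ⟨-, h6⟩ | ⟨-, h6⟩
      · exact hbc h6
      · exact hab h6.symm
    · rintro rfl
      rw [h2] at h5
      rcases Sym2.eq_iff.1 h5 with ⟨-, h6⟩ | ⟨-, h6⟩
      · exact hcd h6.symm
      · exact had h6.symm
    · intro β'
      rcases vert_of_ends G h5 β' with h6 | h6
      · rw [h6]; exact hab
      · rw [h6]; exact hbc.symm
    · intro β'
      rcases vert_of_ends G h5 β' with h6 | h6
      · rw [h6]; exact had
      · rw [h6]; exact hcd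
  obtain ⟨k1, k2, k3, k4, k5⟩ := key g h3
  obtain ⟨l1, l2, l3, l4, l5⟩ := key g' h4
  obtain ⟨β, b1, b2⟩ := ends_bool G h1
  obtain ⟨γ, c1, c2⟩ := ends_bool G h2
  -- the two faces
  have m1 := edge_loc hA ⟨k1.1, l1.1⟩ (fun i => ⟨k2 i, l2 i⟩) k4 l4 b2
    (G.next (G.arr ⟨f, i⟩ true)) (by rw [G.next_arr]; exact hi)
  have m2 := edge_loc hA ⟨k1.2, l1.2⟩ (fun i => ⟨k3 i, l3 i⟩) k5 l5 c2 (G.arr ⟨f, i⟩ true) rfl
  rw [G.face_next, m2] at m1
  tauto

end four

section count

variable [Fintype E]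

open Classical in
/-- the number of edges with given end vertices -/
noncomputable def M (G : Drawing V E F) (p : Sym2 V) : ℕ :=
  (Finset.univ.filter (fun e => ends G e = p)).card

theorem M_two {p : Sym2 V} (h : 2 ≤ M G p) : ∃ e e', e ≠ e' ∧ ends G e = p ∧ ends G e' = p := by
  classical
  unfold M at h
  obtain ⟨e, he, e', he', hne⟩ := Finset.one_lt_card.1 h
  simp only [Finset.mem_filter, Finset.mem_univ, true_and] at he he'
  exact ⟨e, e', hne, he, he'⟩

theorem M_one {p : Sym2 V} (h : 1 ≤ M G p) : ∃ e, ends G e = p := by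
  classical
  unfold M at h
  obtain ⟨e, he⟩ := Finset.card_pos.1 h
  simp only [Finset.mem_filter, Finset.mem_univ, true_and] at he
  exact ⟨e, he⟩

theorem M_three {p : Sym2 V} (h : 3 ≤ M G p) : ∃ e e' e'', e ≠ e' ∧ e ≠ e'' ∧ e' ≠ e'' ∧
    ends G e = p ∧ ends G e' = p ∧ ends G e'' = p := by
  classical
  unfold M at h
  obtain ⟨e, he, e', he', e'', he'', h1, h2, h3⟩ := Finset.two_lt_card.1 h
  simp only [Finset.mem_filter, Finset.mem_univ, true_and] at he he' he''
  exact ⟨e, e', e'', h1, h2, h3, he, he', he''⟩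

theorem rule (hs : G.Simple) (hh : G.NonHomotopic) {a b c d : V}
    (hV : ∀ v, v = a ∨ v = b ∨ v = c ∨ v = d) (hab : a ≠ b) (hac : a ≠ c)
    (had : a ≠ d) (hbc : b ≠ c) (hbd : b ≠ d) (hcd : c ≠ d) (h1 : 2 ≤ M G s(a, b))
    (h2 : 1 ≤ M G s(c, d)) : M G s(a, c) ≤ 1 := by
  by_contra h3
  obtain ⟨e, e', n1, e1, e2⟩ := M_two h1
  obtain ⟨f, f1⟩ := M_one h2
  obtain ⟨g, g', n2, g1, g2⟩ := M_two (by omega : 2 ≤ M G s(a, c))
  obtain ⟨i, hi | hi⟩ := crosses hh hV hac had hbc hbd n1 e1 e2 f1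
  · exact no_two hs hh hV hab had hbc hcd e1 f1 i hi n2 g1 g2
  · exact no_two hs hh hV hab had hbc hcd e2 f1 i hi n2 g1 g2

theorem card_le_eight [Fintype V] (hl : G.Loopless) (hs : G.Simple) (hh : G.NonHomotopic)
    (h4 : Fintype.card V = 4) : Fintype.card E ≤ 8 := by
  classical
  -- the vertices
  have σ := (Fintype.equivFinOfCardEq h4).symm
  obtain ⟨a, b, c, d, hV, hab, hac, had, hbc, hbd, hcd⟩ : ∃ a b c d : V,
      (∀ v, v = a ∨ v = b ∨ v = c ∨ v = d) ∧ a ≠ b ∧ a ≠ c ∧ a ≠ d ∧ b ≠ c ∧ b ≠ d ∧ c ≠ d := by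
    refine ⟨σ 0, σ 1, σ 2, σ 3, fun v => ?_, ?_, ?_, ?_, ?_, ?_, ?_⟩
    · obtain ⟨i, rfl⟩ := σ.surjective v
      fin_cases i <;> simp
    all_goals
      intro h
      have := σ.injective h
      revert this
      decide
  have three : ∀ (a b c d : V), (∀ v, v = a ∨ v = b ∨ v = c ∨ v = d) → M G s(a, b) ≤ 2 := by
    intro a b c d hV
    by_contra h
    obtain ⟨e, e', e'', n1, n2, n3, h1, h2, h3⟩ := M_three (by omega : 3 ≤ M G s(a, b))
    exact no_three hh hV n1 n2 n3 h1 h2 h3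
  have perm : ∀ (x y z w : V), (∀ v, v = a ∨ v = b ∨ v = c ∨ v = d → v = x ∨ v = y ∨ v = z ∨ v = w) →
      ∀ v, v = x ∨ v = y ∨ v = z ∨ v = w := fun x y z w h v => h v (hV v)
  -- the bound by the six numbers
  have hsum : Fintype.card E ≤ M G s(a, b) + M G s(a, c) + M G s(a, d) + M G s(b, c) +
      M G s(b, d) + M G s(c, d) := by
    have hsub : (Finset.univ : Finset E) ⊆
        ((((Finset.univ.filter (fun e => ends G e = s(a, b)) ∪
          Finset.univ.filter (fun e => ends G e = s(a, c))) ∪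
          Finset.univ.filter (fun e => ends G e = s(a, d))) ∪
          Finset.univ.filter (fun e => ends G e = s(b, c))) ∪
          Finset.univ.filter (fun e => ends G e = s(b, d))) ∪
          Finset.univ.filter (fun e => ends G e = s(c, d)) := by
      intro e _
      simp only [Finset.mem_union, Finset.mem_filter, Finset.mem_univ, true_and]
      have h1 := hV (G.vert (e, false))
      have h2 := hV (G.vert (e, true))
      have h3 := hl e
      unfold ends
      rcases h1 with h1 | h1 | h1 | h1 <;> rcases h2 with h2 | h2 | h2 | h2 <;>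
        rw [h1, h2] at h3 <;> rw [h1, h2] <;>
        first
        | exact absurd rfl h3
        | simp [Sym2.eq_swap]
    refine le_trans (Finset.card_le_card hsub) ?_
    refine le_trans (Finset.card_union_le _ _) (Nat.add_le_add ?_ le_rfl)
    refine le_trans (Finset.card_union_le _ _) (Nat.add_le_add ?_ le_rfl)
    refine le_trans (Finset.card_union_le _ _) (Nat.add_le_add ?_ le_rfl)
    refine le_trans (Finset.card_union_le _ _) (Nat.add_le_add ?_ le_rfl)
    exact Finset.card_union_le _ _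
  -- the single bounds
  have t1 := three a b c d hV
  have t2 := three a c b d (perm _ _ _ _ (by intro v h; rcases h with h | h | h | h <;> simp [h]))
  have t3 := three a d b c (perm _ _ _ _ (by intro v h; rcases h with h | h | h | h <;> simp [h]))
  have t4 := three b c a d (perm _ _ _ _ (by intro v h; rcases h with h | h | h | h <;> simp [h]))
  have t5 := three b d a c (perm _ _ _ _ (by intro v h; rcases h with h | h | h | h <;> simp [h]))
  have t6 := three c d a b (perm _ _ _ _ (by intro v h; rcases h with h | h | h | h <;> simp [h]))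
  -- the rules
  have R : ∀ {x y z w : V}, (∀ v, v = x ∨ v = y ∨ v = z ∨ v = w) → x ≠ y → x ≠ z → x ≠ w →
      y ≠ z → y ≠ w → z ≠ w → 2 ≤ M G s(x, y) → 1 ≤ M G s(z, w) → M G s(x, z) ≤ 1 :=
    fun hV h1 h2 h3 h4 h5 h6 h7 h8 => rule hs hh hV h1 h2 h3 h4 h5 h6 h7 h8
  have sw : ∀ x y : V, M G s(x, y) = M G s(y, x) := fun x y => by rw [Sym2.eq_swap]
  -- ab | cd
  have r1 : 2 ≤ M G s(a, b) → 1 ≤ M G s(c, d) → M G s(a, c) ≤ 1 ∧ M G s(a, d) ≤ 1 ∧
      M G s(b, c) ≤ 1 ∧ M G s(b, d) ≤ 1 := by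
    intro p q
    have p' : 2 ≤ M G s(b, a) := by rwa [sw]
    have q' : 1 ≤ M G s(d, c) := by rwa [sw]
    exact ⟨R hV hab hac had hbc hbd hcd p q,
      R (perm a b d c (by intro v h; rcases h with h | h | h | h <;> simp [h])) hab had hac hbd hbc hcd.symm p q',
      R (perm b a c d (by intro v h; rcases h with h | h | h | h <;> simp [h])) hab.symm hbc hbd hac had hcd p' q,
      R (perm b a d c (by intro v h; rcases h with h | h | h | h <;> simp [h])) hab.symm hbd hbc had hac hcd.symm p' q'⟩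
  have r2 : 2 ≤ M G s(c, d) → 1 ≤ M G s(a, b) → M G s(a, c) ≤ 1 ∧ M G s(a, d) ≤ 1 ∧
      M G s(b, c) ≤ 1 ∧ M G s(b, d) ≤ 1 := by
    intro p q
    have p' : 2 ≤ M G s(d, c) := by rwa [sw]
    have q' : 1 ≤ M G s(b, a) := by rwa [sw]
    rw [sw a c, sw a d, sw b c, sw b d]
    exact ⟨R (perm c d a b (by intro v h; rcases h with h | h | h | h <;> simp [h])) hcd hac.symm hbc.symm had.symm hbd.symm hab p q,
      R (perm d c a b (by intro v h; rcases h with h | h | h | h <;> simp [h])) hcd.symm had.symm hbd.symm hac.symm hbc.symm hab p' q,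
      R (perm c d b a (by intro v h; rcases h with h | h | h | h <;> simp [h])) hcd hbc.symm hac.symm hbd.symm had.symm hab.symm p q',
      R (perm d c b a (by intro v h; rcases h with h | h | h | h <;> simp [h])) hcd.symm hbd.symm had.symm hbc.symm hac.symm hab.symm p' q'⟩
  -- ac | bd
  have r3 : 2 ≤ M G s(a, c) → 1 ≤ M G s(b, d) → M G s(a, b) ≤ 1 ∧ M G s(a, d) ≤ 1 ∧
      M G s(b, c) ≤ 1 ∧ M G s(c, d) ≤ 1 := by
    intro p q
    have p' : 2 ≤ M G s(c, a) := by rwa [sw]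
    have q' : 1 ≤ M G s(d, b) := by rwa [sw]
    rw [sw b c]
    exact ⟨R (perm a c b d (by intro v h; rcases h with h | h | h | h <;> simp [h])) hac hab had hbc.symm hcd hbd p q,
      R (perm a c d b (by intro v h; rcases h with h | h | h | h <;> simp [h])) hac had hab hcd hbc.symm hbd.symm p q',
      R (perm c a b d (by intro v h; rcases h with h | h | h | h <;> simp [h])) hac.symm hbc.symm hcd hab had hbd p' q,
      R (perm c a d b (by intro v h; rcases h with h | h | h | h <;> simp [h])) hac.symm hcd hbc.symm had hab hbd.symm p' q'⟩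
  have r4 : 2 ≤ M G s(b, d) → 1 ≤ M G s(a, c) → M G s(a, b) ≤ 1 ∧ M G s(a, d) ≤ 1 ∧
      M G s(b, c) ≤ 1 ∧ M G s(c, d) ≤ 1 := by
    intro p q
    have p' : 2 ≤ M G s(d, b) := by rwa [sw]
    have q' : 1 ≤ M G s(c, a) := by rwa [sw]
    rw [sw a b, sw a d, sw c d]
    exact ⟨R (perm b d a c (by intro v h; rcases h with h | h | h | h <;> simp [h])) hbd hab.symm hbc had.symm hcd.symm hac p q,
      R (perm d b a c (by intro v h; rcases h with h | h | h | h <;> simp [h])) hbd.symm had.symm hcd.symm hab.symm hbc hac p' q,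
      R (perm b d c a (by intro v h; rcases h with h | h | h | h <;> simp [h])) hbd hbc hab.symm hcd.symm had.symm hac.symm p q',
      R (perm d b c a (by intro v h; rcases h with h | h | h | h <;> simp [h])) hbd.symm hcd.symm had.symm hbc hab.symm hac.symm p' q'⟩
  -- ad | bc
  have r5 : 2 ≤ M G s(a, d) → 1 ≤ M G s(b, c) → M G s(a, b) ≤ 1 ∧ M G s(a, c) ≤ 1 ∧
      M G s(b, d) ≤ 1 ∧ M G s(c, d) ≤ 1 := by
    intro p q
    have p' : 2 ≤ M G s(d, a) := by rwa [sw]
    have q' : 1 ≤ M G s(c, b) := by rwa [sw]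
    rw [sw b d, sw c d]
    exact ⟨R (perm a d b c (by intro v h; rcases h with h | h | h | h <;> simp [h])) had hab hac hbd.symm hcd.symm hbc p q,
      R (perm a d c b (by intro v h; rcases h with h | h | h | h <;> simp [h])) had hac hab hcd.symm hbd.symm hbc.symm p q',
      R (perm d a b c (by intro v h; rcases h with h | h | h | h <;> simp [h])) had.symm hbd.symm hcd.symm hab hac hbc p' q,
      R (perm d a c b (by intro v h; rcases h with h | h | h | h <;> simp [h])) had.symm hcd.symm hbd.symm hac hab hbc.symm p' q'⟩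
  have r6 : 2 ≤ M G s(b, c) → 1 ≤ M G s(a, d) → M G s(a, b) ≤ 1 ∧ M G s(a, c) ≤ 1 ∧
      M G s(b, d) ≤ 1 ∧ M G s(c, d) ≤ 1 := by
    intro p q
    have p' : 2 ≤ M G s(c, b) := by rwa [sw]
    have q' : 1 ≤ M G s(d, a) := by rwa [sw]
    rw [sw a b, sw a c]
    exact ⟨R (perm b c a d (by intro v h; rcases h with h | h | h | h <;> simp [h])) hbc hab.symm hbd hac.symm hcd had p q,
      R (perm c b a d (by intro v h; rcases h with h | h | h | h <;> simp [h])) hbc.symm hac.symm hcd hab.symm hbd had p' q,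
      R (perm b c d a (by intro v h; rcases h with h | h | h | h <;> simp [h])) hbc hbd hab.symm hcd hac.symm had.symm p q',
      R (perm c b d a (by intro v h; rcases h with h | h | h | h <;> simp [h])) hbc.symm hcd hac.symm hbd hab.symm had.symm p' q'⟩
  generalize M G s(a, b) = x1 at *
  generalize M G s(a, c) = x2 at *
  generalize M G s(a, d) = x3 at *
  generalize M G s(b, c) = x4 at *
  generalize M G s(b, d) = x5 at *
  generalize M G s(c, d) = x6 at *
  omega

theorem card_le_three [Fintype V] (hl : G.Loopless) (hh : G.NonHomotopic)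
    (h3 : Fintype.card V = 3) : Fintype.card E ≤ 3 := by
  classical
  have hinj : Function.Injective (fun e : E => (⟨ends G e, by
      unfold ends
      rw [Sym2.mk_isDiag_iff]
      exact hl e⟩ : {p : Sym2 V // ¬ p.IsDiag})) := by
    intro e e' h
    by_contra hne
    have h1 : ends G e = ends G e' := congrArg Subtype.val h
    obtain ⟨A, -, ⟨v, hv1, hv2, hv3⟩, ⟨w, hw1, hw2, hw3⟩⟩ := hh e e' hne (ends_set G h1)
    have hvw : v ≠ w := by
      rintro rfl
      exact hw3 hv3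
    have h4 : ({G.vert (e, false), G.vert (e, true), v, w} : Finset V).card = 4 := by
      rw [Finset.card_insert_of_notMem, Finset.card_insert_of_notMem,
        Finset.card_insert_of_notMem, Finset.card_singleton]
      · simpa using hvw
      · simp only [Finset.mem_insert, Finset.mem_singleton, not_or]
        exact ⟨hv2.symm, hw2.symm⟩
      · simp only [Finset.mem_insert, Finset.mem_singleton, not_or]
        exact ⟨hl e, hv1.symm, hw1.symm⟩
    have h5 := Finset.card_le_univ ({G.vert (e, false), G.vert (e, true), v, w} : Finset V)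
    omega
  have h4 := Fintype.card_le_of_injective _ hinj
  rw [Sym2.card_subtype_not_diag, h3] at h4
  exact h4

end count

end Pool.Agent.Helper94.FP
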