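import Pool.Agent.Helper94.FP.Merge

/-!
# Gluing two drawings along uncrossed edges
-/

set_option autoImplicit false

namespace Pool.Agent.Helper94.FP

open Pool.Agent.Q238.FP

namespace Glue

variable {V₁ E₁ V₂ E₂ : Type} (G₁ : Data V₁ E₁) (G₂ : Data V₂ E₂) (e₁ : E₁) (e₂ : E₂)

/-- the vertices of the glued drawing -/
abbrev VV : Type := V₁ ⊕ {v : V₂ // v ≠ G₂.vert (e₂, false) ∧ v ≠ G₂.vert (e₂, true)}

open Classical in
/-- the vertices of the second drawing in the glued drawing -/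
noncomputable def emb (v : V₂) : VV (V₁ := V₁) G₂ e₂ :=
  if h : v = G₂.vert (e₂, false) then Sum.inl (G₁.vert (e₁, false))
  else if h' : v = G₂.vert (e₂, true) then Sum.inl (G₁.vert (e₁, true))
  else Sum.inr ⟨v, h, h'⟩

theorem emb_false : emb G₁ G₂ e₁ e₂ (G₂.vert (e₂, false)) = Sum.inl (G₁.vert (e₁, false)) := by
  simp [emb]

theorem emb_true (h2 : G₂.vert (e₂, false) ≠ G₂.vert (e₂, true)) :
    emb G₁ G₂ e₁ e₂ (G₂.vert (e₂, true)) = Sum.inl (G₁.vert (e₁, true)) := by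
  simp [emb, h2.symm]

theorem emb_other {v : V₂} (h : v ≠ G₂.vert (e₂, false)) (h' : v ≠ G₂.vert (e₂, true)) :
    emb G₁ G₂ e₁ e₂ v = Sum.inr ⟨v, h, h'⟩ := by
  simp [emb, h, h']

theorem emb_eq_inl {v : V₂} {w : V₁} (h : emb G₁ G₂ e₁ e₂ v = Sum.inl w) :
    (v = G₂.vert (e₂, false) ∧ w = G₁.vert (e₁, false)) ∨
      (v = G₂.vert (e₂, true) ∧ w = G₁.vert (e₁, true)) := by
  unfold emb at h
  split_ifs at h with h1 h2
  · exact Or.inl ⟨h1, (Sum.inl.inj h).symm⟩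
  · exact Or.inr ⟨h2, (Sum.inl.inj h).symm⟩

theorem emb_inj (h1 : G₁.vert (e₁, false) ≠ G₁.vert (e₁, true)) {v w : V₂}
    (h : emb G₁ G₂ e₁ e₂ v = emb G₁ G₂ e₁ e₂ w) : v = w := by
  by_cases hv : v = G₂.vert (e₂, false)
  · have h3 : emb G₁ G₂ e₁ e₂ w = Sum.inl (G₁.vert (e₁, false)) := by
      rw [← h, hv, emb_false]
    rcases emb_eq_inl _ _ _ _ h3 with ⟨h4, -⟩ | ⟨-, h4⟩
    · rw [hv, h4]
    · exact absurd h4 h1
  · by_cases hv' : v = G₂.vert (e₂, true)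
    · have h2 : G₂.vert (e₂, false) ≠ G₂.vert (e₂, true) := by
        intro h2
        exact hv (hv'.trans h2.symm)
      have h3 : emb G₁ G₂ e₁ e₂ w = Sum.inl (G₁.vert (e₁, true)) := by
        rw [← h, hv', emb_true _ _ _ _ h2]
      rcases emb_eq_inl _ _ _ _ h3 with ⟨-, h4⟩ | ⟨h4, -⟩
      · exact absurd h4.symm h1
      · rw [hv', h4]
    · rw [emb_other _ _ _ _ hv hv'] at h
      rcases Classical.em (w = G₂.vert (e₂, false)) with hw | hw
      · rw [hw, emb_false] at h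
        cases h
      · rcases Classical.em (w = G₂.vert (e₂, true)) with hw' | hw'
        · have h2 : G₂.vert (e₂, false) ≠ G₂.vert (e₂, true) := by
            intro h2
            exact hw (hw'.trans h2.symm)
          rw [hw', emb_true _ _ _ _ h2] at h
          cases h
        · rw [emb_other _ _ _ _ hw hw'] at h
          exact congrArg Subtype.val (Sum.inr.inj h)

/-- the end vertices -/
noncomputable def gvert : (E₁ ⊕ E₂) × Bool → VV (V₁ := V₁) G₂ e₂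
  | (Sum.inl e, b) => Sum.inl (G₁.vert (e, b))
  | (Sum.inr e, b) => emb G₁ G₂ e₁ e₂ (G₂.vert (e, b))

/-- the numbers of crossing points -/
def glen : E₁ ⊕ E₂ → ℕ
  | Sum.inl e => G₁.len e
  | Sum.inr e => G₂.len e

/-- crossing points -/
def c1 (x : Σ e, Fin (G₁.len e)) : Σ e, Fin (glen G₁ G₂ e) := ⟨Sum.inl x.1, x.2⟩

/-- crossing points -/
def c2 (x : Σ e, Fin (G₂.len e)) : Σ e, Fin (glen G₁ G₂ e) := ⟨Sum.inr x.1, x.2⟩

/-- the crossing points -/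
def gcr : (Σ e, Fin (glen G₁ G₂ e)) → (Σ e, Fin (glen G₁ G₂ e))
  | ⟨Sum.inl e, i⟩ => c1 G₁ G₂ (G₁.cr ⟨e, i⟩)
  | ⟨Sum.inr e, i⟩ => c2 G₁ G₂ (G₂.cr ⟨e, i⟩)

/-- the sides -/
def gleft : (Σ e, Fin (glen G₁ G₂ e)) → Bool
  | ⟨Sum.inl e, i⟩ => G₁.toLeft ⟨e, i⟩
  | ⟨Sum.inr e, i⟩ => G₂.toLeft ⟨e, i⟩

/-- the edge ends of the first drawing -/
def s1 (x : E₁ × Bool) : (E₁ ⊕ E₂) × Bool := (Sum.inl x.1, x.2)

/-- the edge ends of the second drawing -/
def s2 (x : E₂ × Bool) : (E₁ ⊕ E₂) × Bool := (Sum.inr x.1, x.2)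

theorem s_cases (x : (E₁ ⊕ E₂) × Bool) : (∃ y, x = s1 y) ∨ ∃ y, x = s2 y := by
  rcases x with ⟨e | e, b⟩
  · exact Or.inl ⟨(e, b), rfl⟩
  · exact Or.inr ⟨(e, b), rfl⟩

theorem s1_inj {x y : E₁ × Bool} (h : (s1 x : (E₁ ⊕ E₂) × Bool) = s1 y) : x = y := by
  rcases x with ⟨e, b⟩
  rcases y with ⟨e', b'⟩
  simpa [s1] using h

theorem s2_inj {x y : E₂ × Bool} (h : (s2 x : (E₁ ⊕ E₂) × Bool) = s2 y) : x = y := by
  rcases x with ⟨e, b⟩
  rcases y with ⟨e', b'⟩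
  simpa [s2] using h

theorem s12 (x : E₁ × Bool) (y : E₂ × Bool) : (s1 x : (E₁ ⊕ E₂) × Bool) ≠ s2 y := by
  intro h
  simp [s1, s2] at h

/-- both rotations -/
def grot0 : Equiv.Perm ((E₁ ⊕ E₂) × Bool) :=
  (Equiv.sumProdDistrib E₁ E₂ Bool).trans ((Equiv.sumCongr G₁.rot G₂.rot).trans
    (Equiv.sumProdDistrib E₁ E₂ Bool).symm)

theorem grot0_s1 (x : E₁ × Bool) : grot0 G₁ G₂ (s1 x) = s1 (G₁.rot x) := by
  rcases x with ⟨e, b⟩
  simp [grot0, s1]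

theorem grot0_s2 (x : E₂ × Bool) : grot0 G₁ G₂ (s2 x) = s2 (G₂.rot x) := by
  rcases x with ⟨e, b⟩
  simp [grot0, s2]

open Classical in
/-- the rotation -/
noncomputable def grot : Equiv.Perm ((E₁ ⊕ E₂) × Bool) :=
  Equiv.swap (s1 (e₁, true)) (s2 (e₂, true)) *
    (grot0 G₁ G₂ * Equiv.swap (s1 (e₁, false)) (s2 (e₂, false)))

theorem grot0_same1 {x y : E₁ × Bool} (h : G₁.rot.SameCycle x y) :
    (grot0 G₁ G₂).SameCycle (s1 x) (s1 y) := by
  have h1 := sameCycle_inv (σ := G₁.rot) (f := fun z => (grot0 G₁ G₂).SameCycle (s1 x) (s1 z))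
    (fun z => by
      have h2 : grot0 G₁ G₂ (s1 z) = s1 (G₁.rot z) := grot0_s1 _ _ _
      simp only [← h2, Equiv.Perm.sameCycle_apply_right]) h
  exact h1.mp (Equiv.Perm.SameCycle.refl _ _)

theorem grot0_same2 {x y : E₂ × Bool} (h : G₂.rot.SameCycle x y) :
    (grot0 G₁ G₂).SameCycle (s2 x) (s2 y) := by
  have h1 := sameCycle_inv (σ := G₂.rot) (f := fun z => (grot0 G₁ G₂).SameCycle (s2 x) (s2 z))
    (fun z => by
      have h2 : grot0 G₁ G₂ (s2 z) = s2 (G₂.rot z) := grot0_s2 _ _ _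
      simp only [← h2, Equiv.Perm.sameCycle_apply_right]) h
  exact h1.mp (Equiv.Perm.SameCycle.refl _ _)

theorem not_same0 (x : E₁ × Bool) (y : E₂ × Bool) :
    ¬ (grot0 G₁ G₂).SameCycle (s1 x) (s2 y) := by
  intro h
  have h1 := sameCycle_inv (σ := grot0 G₁ G₂) (f := fun z => z.1.isLeft) (fun z => by
    rcases s_cases z with ⟨y, rfl⟩ | ⟨y, rfl⟩
    · rw [grot0_s1]; rfl
    · rw [grot0_s2]; rfl) h
  simp [s1, s2] at h1

open Classical in
theorem not_same1 (h1 : G₁.vert (e₁, false) ≠ G₁.vert (e₁, true)) :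
    ¬ (grot0 G₁ G₂ * Equiv.swap (s1 (e₁, false)) (s2 (e₂, false))).SameCycle
      (s1 (e₁, true)) (s2 (e₂, true)) := by
  intro h
  have h2 := sameCycle_inv (f := fun z : (E₁ ⊕ E₂) × Bool =>
    ∃ y, z = s1 y ∧ G₁.vert y = G₁.vert (e₁, true)) (fun z => by
      apply propext
      rw [Equiv.Perm.mul_apply]
      by_cases hz1 : z = s1 (e₁, false)
      · subst hz1
        rw [Equiv.swap_apply_left, grot0_s2]
        constructor
        · rintro ⟨y, hy, -⟩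
          exact absurd hy.symm (s12 _ _)
        · rintro ⟨y, hy, hy'⟩
          rw [← s1_inj hy] at hy'
          exact absurd hy' h1
      · by_cases hz2 : z = s2 (e₂, false)
        · subst hz2
          rw [Equiv.swap_apply_right, grot0_s1]
          constructor
          · rintro ⟨y, hy, hy'⟩
            rw [← s1_inj hy, G₁.vert_rot] at hy'
            exact absurd hy' h1
          · rintro ⟨y, hy, -⟩
            exact absurd hy.symm (s12 _ _)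
        · rw [Equiv.swap_apply_of_ne_of_ne hz1 hz2]
          rcases s_cases z with ⟨w, rfl⟩ | ⟨w, rfl⟩
          · rw [grot0_s1]
            constructor
            · rintro ⟨y, hy, hy'⟩
              refine ⟨w, rfl, ?_⟩
              rw [← hy', ← s1_inj hy, G₁.vert_rot]
            · rintro ⟨y, hy, hy'⟩
              refine ⟨_, rfl, ?_⟩
              rw [G₁.vert_rot, s1_inj hy, hy']
          · rw [grot0_s2]
            constructor
            · rintro ⟨y, hy, -⟩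
              exact absurd hy.symm (s12 _ _)
            · rintro ⟨y, hy, -⟩
              exact absurd hy.symm (s12 _ _)) h
  have h3 : ∃ y : E₁ × Bool, (s1 (e₁, true) : (E₁ ⊕ E₂) × Bool) = s1 y ∧
      G₁.vert y = G₁.vert (e₁, true) := ⟨_, rfl, rfl⟩
  obtain ⟨y, hy, -⟩ := h2.mp h3
  exact absurd hy.symm (s12 _ _)

theorem gvert_s1 (x : E₁ × Bool) : gvert G₁ G₂ e₁ e₂ (s1 x) = Sum.inl (G₁.vert x) := rfl

theorem gvert_s2 (x : E₂ × Bool) : gvert G₁ G₂ e₁ e₂ (s2 x) = emb G₁ G₂ e₁ e₂ (G₂.vert x) := rfl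

theorem gvert_grot (h2 : G₂.vert (e₂, false) ≠ G₂.vert (e₂, true)) (x : (E₁ ⊕ E₂) × Bool) :
    gvert G₁ G₂ e₁ e₂ (grot G₁ G₂ e₁ e₂ x) = gvert G₁ G₂ e₁ e₂ x := by
  classical
  have hs1 : ∀ z, gvert G₁ G₂ e₁ e₂ (Equiv.swap (s1 (e₁, true)) (s2 (e₂, true)) z) =
      gvert G₁ G₂ e₁ e₂ z := by
    intro z
    have : gvert G₁ G₂ e₁ e₂ (s1 (e₁, true)) = gvert G₁ G₂ e₁ e₂ (s2 (e₂, true)) := by
      rw [gvert_s1, gvert_s2, emb_true _ _ _ _ h2]
    by_cases h1 : z = s1 (e₁, true)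
    · subst h1
      rw [Equiv.swap_apply_left, this]
    · by_cases h2 : z = s2 (e₂, true)
      · subst h2
        rw [Equiv.swap_apply_right, this]
      · rw [Equiv.swap_apply_of_ne_of_ne h1 h2]
  have hs2 : ∀ z, gvert G₁ G₂ e₁ e₂ (Equiv.swap (s1 (e₁, false)) (s2 (e₂, false)) z) =
      gvert G₁ G₂ e₁ e₂ z := by
    intro z
    have : gvert G₁ G₂ e₁ e₂ (s1 (e₁, false)) = gvert G₁ G₂ e₁ e₂ (s2 (e₂, false)) := by
      rw [gvert_s1, gvert_s2, emb_false]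
    by_cases h1 : z = s1 (e₁, false)
    · subst h1
      rw [Equiv.swap_apply_left, this]
    · by_cases h2 : z = s2 (e₂, false)
      · subst h2
        rw [Equiv.swap_apply_right, this]
      · rw [Equiv.swap_apply_of_ne_of_ne h1 h2]
  have hg : ∀ z, gvert G₁ G₂ e₁ e₂ (grot0 G₁ G₂ z) = gvert G₁ G₂ e₁ e₂ z := by
    intro z
    rcases s_cases z with ⟨w, rfl⟩ | ⟨w, rfl⟩
    · rw [grot0_s1, gvert_s1, gvert_s1, G₁.vert_rot]
    · rw [grot0_s2, gvert_s2, gvert_s2, G₂.vert_rot]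
  unfold grot
  rw [Equiv.Perm.mul_apply, Equiv.Perm.mul_apply]
  convert (hs1 _).trans ((hg _).trans (hs2 x)) using 3

theorem grot_vert [Finite E₁] [Finite E₂] (h1 : G₁.vert (e₁, false) ≠ G₁.vert (e₁, true))
    (h2 : G₂.vert (e₂, false) ≠ G₂.vert (e₂, true)) (x y : (E₁ ⊕ E₂) × Bool) :
    (grot G₁ G₂ e₁ e₂).SameCycle x y ↔ gvert G₁ G₂ e₁ e₂ x = gvert G₁ G₂ e₁ e₂ y := by
  classical
  constructor
  · exact sameCycle_inv (gvert_grot G₁ G₂ e₁ e₂ h2)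
  · have n0 := not_same0 G₁ G₂ (e₁, false) (e₂, false)
    have n1 := not_same1 G₁ G₂ e₁ e₂ h1
    have hgrot : grot G₁ G₂ e₁ e₂ = Equiv.swap (s1 (e₁, true)) (s2 (e₂, true)) *
        (grot0 G₁ G₂ * Equiv.swap (s1 (e₁, false)) (s2 (e₂, false))) := by
      unfold grot
      congr!
    have n1' : ¬ (grot0 G₁ G₂ * Equiv.swap (s1 (e₁, false)) (s2 (e₂, false))).SameCycle
        (s1 (e₁, true)) (s2 (e₂, true)) := by
      convert n1
    have mono : ∀ {a b}, (grot0 G₁ G₂).SameCycle a b → (grot G₁ G₂ e₁ e₂).SameCycle a b := by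
      intro a b hab
      rw [hgrot]
      exact merge_mono' _ n1' (merge_mono _ n0 hab)
    have k1 : (grot G₁ G₂ e₁ e₂).SameCycle (s1 (e₁, false)) (s2 (e₂, false)) := by
      rw [hgrot]
      exact merge_mono' _ n1' (merge_aux _ n0)
    have k2 : (grot G₁ G₂ e₁ e₂).SameCycle (s1 (e₁, true)) (s2 (e₂, true)) := by
      rw [hgrot]
      exact merge_aux' _ n1'
    have m1 : ∀ a b, G₁.vert a = G₁.vert b → (grot G₁ G₂ e₁ e₂).SameCycle (s1 a) (s1 b) :=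
      fun a b h => mono (grot0_same1 G₁ G₂ ((G₁.rot_vert a b).2 h))
    have m2 : ∀ a b, G₂.vert a = G₂.vert b → (grot G₁ G₂ e₁ e₂).SameCycle (s2 a) (s2 b) :=
      fun a b h => mono (grot0_same2 G₁ G₂ ((G₂.rot_vert a b).2 h))
    have m12 : ∀ a b, gvert G₁ G₂ e₁ e₂ (s1 a) = gvert G₁ G₂ e₁ e₂ (s2 b) →
        (grot G₁ G₂ e₁ e₂).SameCycle (s1 a) (s2 b) := by
      intro a b h
      rw [gvert_s1, gvert_s2] at h
      rcases emb_eq_inl _ _ _ _ h.symm with ⟨h3, h4⟩ | ⟨h3, h4⟩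
      · exact ((m1 _ _ h4).trans k1).trans (m2 _ _ h3.symm)
      · exact ((m1 _ _ h4).trans k2).trans (m2 _ _ h3.symm)
    intro h
    rcases s_cases x with ⟨a, rfl⟩ | ⟨a, rfl⟩ <;> rcases s_cases y with ⟨b, rfl⟩ | ⟨b, rfl⟩
    · exact m1 _ _ (Sum.inl.inj h)
    · exact m12 _ _ h
    · exact (m12 _ _ h.symm).symm
    · exact m2 _ _ (emb_inj G₁ G₂ e₁ e₂ h1 h)

/-- The glued drawing. -/
noncomputable def glue [Finite E₁] [Finite E₂] (h1 : G₁.vert (e₁, false) ≠ G₁.vert (e₁, true))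
    (h2 : G₂.vert (e₂, false) ≠ G₂.vert (e₂, true)) : Data (VV (V₁ := V₁) G₂ e₂) (E₁ ⊕ E₂) where
  vert := gvert G₁ G₂ e₁ e₂
  len := glen G₁ G₂
  cr := gcr G₁ G₂
  toLeft := gleft G₁ G₂
  rot := grot G₁ G₂ e₁ e₂
  cr_cr := by
    rintro ⟨e | e, i⟩
    · change c1 G₁ G₂ (G₁.cr (G₁.cr ⟨e, i⟩)) = _
      rw [G₁.cr_cr]
      rfl
    · change c2 G₁ G₂ (G₂.cr (G₂.cr ⟨e, i⟩)) = _
      rw [G₂.cr_cr]
      rfl
  toLeft_cr := by
    rintro ⟨e | e, i⟩
    · exact G₁.toLeft_cr ⟨e, i⟩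
    · exact G₂.toLeft_cr ⟨e, i⟩
  rot_vert := grot_vert G₁ G₂ e₁ e₂ h1 h2

end Glue

end Pool.Agent.Helper94.FP
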