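import Pool.Agent.Helper94.FP.GlueNext

/-!
# The glued drawing is good
-/

set_option autoImplicit false

namespace Pool.Agent.Helper94.FP

open Pool.Agent.Q238.FP

namespace Glue

variable {V₁ E₁ V₂ E₂ : Type} (G₁ : Data V₁ E₁) (G₂ : Data V₂ E₂) (e₁ : E₁) (e₂ : E₂)
  [Finite E₁] [Finite E₂] (h1 : G₁.vert (e₁, false) ≠ G₁.vert (e₁, true))
  (h2 : G₂.vert (e₂, false) ≠ G₂.vert (e₂, true))

/-! ### counting -/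

omit [Finite E₁] [Finite E₂] in
theorem card_vert [Finite V₁] [Finite V₂] (h2 : G₂.vert (e₂, false) ≠ G₂.vert (e₂, true)) :
    Nat.card (VV (V₁ := V₁) G₂ e₂) + 2 = Nat.card V₁ + Nat.card V₂ := by
  classical
  have e1 : Nat.card {v : V₂ // v = G₂.vert (e₂, false) ∨ v = G₂.vert (e₂, true)} = 2 := by
    rw [Nat.card_eq_two_iff]
    refine ⟨⟨_, Or.inl rfl⟩, ⟨_, Or.inr rfl⟩, ?_, ?_⟩
    · intro h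
      exact h2 (congrArg Subtype.val h)
    · ext ⟨v, hv⟩
      simp only [Set.mem_insert_iff, Set.mem_singleton_iff, Subtype.mk.injEq, Set.mem_univ,
        iff_true]
      exact hv
  have e2 := Nat.card_congr (Equiv.sumCompl
    (fun v : V₂ => v = G₂.vert (e₂, false) ∨ v = G₂.vert (e₂, true)))
  rw [Nat.card_sum, e1] at e2
  have e3 : Nat.card {v : V₂ // ¬ (v = G₂.vert (e₂, false) ∨ v = G₂.vert (e₂, true))} =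
      Nat.card {v : V₂ // v ≠ G₂.vert (e₂, false) ∧ v ≠ G₂.vert (e₂, true)} :=
    Nat.card_congr (Equiv.subtypeEquivRight fun v => by rw [not_or])
  rw [e3] at e2
  rw [Nat.card_sum]
  omega

theorem card_cr : Nat.card (Σ e, Fin ((glue G₁ G₂ e₁ e₂ h1 h2).len e)) =
    Nat.card (Σ e, Fin (G₁.len e)) + Nat.card (Σ e, Fin (G₂.len e)) := by
  rw [← Nat.card_sum]
  exact Nat.card_congr (Equiv.sumSigmaDistrib (fun e => Fin ((glue G₁ G₂ e₁ e₂ h1 h2).len e)))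

theorem card_seg : Nat.card (Σ e, Fin ((glue G₁ G₂ e₁ e₂ h1 h2).len e + 1)) =
    Nat.card (Σ e, Fin (G₁.len e + 1)) + Nat.card (Σ e, Fin (G₂.len e + 1)) := by
  rw [← Nat.card_sum]
  exact Nat.card_congr (Equiv.sumSigmaDistrib (fun e => Fin ((glue G₁ G₂ e₁ e₂ h1 h2).len e + 1)))

/-- the walk of a dart, in the two drawings -/
def kk : (glue G₁ G₂ e₁ e₂ h1 h2).Dart → G₁.Walk ⊕ G₂.Walk
  | (⟨Sum.inl e, i⟩, b) => Sum.inl (Quot.mk _ (⟨e, i⟩, b))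
  | (⟨Sum.inr e, i⟩, b) => Sum.inr (Quot.mk _ (⟨e, i⟩, b))

theorem kk_i1 (a : G₁.Dart) : kk G₁ G₂ e₁ e₂ h1 h2 (i1 G₁ G₂ e₁ e₂ h1 h2 a) =
    Sum.inl (Quot.mk _ a) := rfl

theorem kk_i2 (a : G₂.Dart) : kk G₁ G₂ e₁ e₂ h1 h2 (i2 G₁ G₂ e₁ e₂ h1 h2 a) =
    Sum.inr (Quot.mk _ a) := rfl

theorem card_walk (l1 : G₁.len e₁ = 0) (l2 : G₂.len e₂ = 0) :
    Nat.card (glue G₁ G₂ e₁ e₂ h1 h2).Walk = Nat.card G₁.Walk + Nat.card G₂.Walk := by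
  have hw : ∀ d, kk G₁ G₂ e₁ e₂ h1 h2 (tau G₁ G₂ e₁ e₂ h1 h2
      ((glue G₁ G₂ e₁ e₂ h1 h2).next d)) =
      kk G₁ G₂ e₁ e₂ h1 h2 (tau G₁ G₂ e₁ e₂ h1 h2 d) := by
    intro d
    rcases j_cases G₁ G₂ e₁ e₂ h1 h2 d with ⟨a, rfl⟩ | ⟨a, rfl⟩
    · rw [next_j1 _ _ _ _ _ _ l1 l2, j1, j1, tau_tau, tau_tau, kk_i1, kk_i1]
      have h3 : (Quot.mk _ a : G₁.Walk) = Quot.mk _ (G₁.next a) := Quot.sound rfl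
      rw [h3]
    · rw [next_j2 _ _ _ _ _ _ l1 l2, j2, j2, tau_tau, tau_tau, kk_i2, kk_i2]
      have h3 : (Quot.mk _ a : G₂.Walk) = Quot.mk _ (G₂.next a) := Quot.sound rfl
      rw [h3]
  let f : (glue G₁ G₂ e₁ e₂ h1 h2).Walk → G₁.Walk ⊕ G₂.Walk :=
    Quot.lift (fun d => kk G₁ G₂ e₁ e₂ h1 h2 (tau G₁ G₂ e₁ e₂ h1 h2 d)) (fun a b h => by
      rw [← h, hw])
  let g : G₁.Walk ⊕ G₂.Walk → (glue G₁ G₂ e₁ e₂ h1 h2).Walk := Sum.elim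
    (Quot.lift (fun d => Quot.mk _ (j1 G₁ G₂ e₁ e₂ h1 h2 d)) (fun a b h => by
      rw [← h, ← next_j1 _ _ _ _ _ _ l1 l2]
      exact Quot.sound rfl))
    (Quot.lift (fun d => Quot.mk _ (j2 G₁ G₂ e₁ e₂ h1 h2 d)) (fun a b h => by
      rw [← h, ← next_j2 _ _ _ _ _ _ l1 l2]
      exact Quot.sound rfl))
  rw [← Nat.card_sum]
  refine Nat.card_congr ⟨f, g, ?_, ?_⟩
  · intro w
    induction w using Quot.ind with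
    | mk d =>
      rcases j_cases G₁ G₂ e₁ e₂ h1 h2 d with ⟨a, rfl⟩ | ⟨a, rfl⟩
      · change g (kk G₁ G₂ e₁ e₂ h1 h2 (tau G₁ G₂ e₁ e₂ h1 h2 (tau G₁ G₂ e₁ e₂ h1 h2 _))) = _
        rw [tau_tau]
        rfl
      · change g (kk G₁ G₂ e₁ e₂ h1 h2 (tau G₁ G₂ e₁ e₂ h1 h2 (tau G₁ G₂ e₁ e₂ h1 h2 _))) = _
        rw [tau_tau]
        rfl
  · rintro (w | w)
    · induction w using Quot.ind with
      | mk d =>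
        change kk G₁ G₂ e₁ e₂ h1 h2 (tau G₁ G₂ e₁ e₂ h1 h2 (tau G₁ G₂ e₁ e₂ h1 h2 _)) = _
        rw [tau_tau]
        rfl
    · induction w using Quot.ind with
      | mk d =>
        change kk G₁ G₂ e₁ e₂ h1 h2 (tau G₁ G₂ e₁ e₂ h1 h2 (tau G₁ G₂ e₁ e₂ h1 h2 _)) = _
        rw [tau_tau]
        rfl

/-! ### simple conditions -/

theorem inc (H₁ : Good G₁) (H₂ : Good G₂) (v : VV (V₁ := V₁) G₂ e₂) :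
    ∃ x, (glue G₁ G₂ e₁ e₂ h1 h2).vert x = v := by
  rcases v with v | ⟨v, hv, hv'⟩
  · obtain ⟨x, hx⟩ := H₁.inc v
    refine ⟨s1 x, ?_⟩
    change gvert G₁ G₂ e₁ e₂ (s1 x) = _
    rw [gvert_s1, hx]
  · obtain ⟨x, hx⟩ := H₂.inc v
    refine ⟨s2 x, ?_⟩
    change gvert G₁ G₂ e₁ e₂ (s2 x) = _
    rw [gvert_s2, hx, emb_other _ _ _ _ hv hv']

theorem loopless (H₁ : G₁.Loopless) (H₂ : G₂.Loopless) :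
    (glue G₁ G₂ e₁ e₂ h1 h2).Loopless := by
  rintro (e | e) h
  · exact H₁ e (Sum.inl.inj h)
  · exact H₂ e (emb_inj G₁ G₂ e₁ e₂ h1 h)

theorem simple (H₁ : G₁.Simple) (H₂ : G₂.Simple) : (glue G₁ G₂ e₁ e₂ h1 h2).Simple := by
  constructor
  · rintro ⟨e | e, i⟩ b b' h
    · exact H₁.1 ⟨e, i⟩ b b' (Sum.inl.inj h)
    · exact H₂.1 ⟨e, i⟩ b b' (emb_inj G₁ G₂ e₁ e₂ h1 h)
  · rintro ⟨e | e, i⟩ ⟨e' | e', i'⟩ h h'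
    · have k1 : e = e' := Sum.inl.inj h
      have k2 : (G₁.cr ⟨e, i⟩).1 = (G₁.cr ⟨e', i'⟩).1 := Sum.inl.inj h'
      have k3 := H₁.2 ⟨e, i⟩ ⟨e', i'⟩ k1 k2
      exact congrArg (c1 G₁ G₂) k3
    · exact absurd h (by simp)
    · exact absurd h (by simp)
    · have k1 : e = e' := Sum.inr.inj h
      have k2 : (G₂.cr ⟨e, i⟩).1 = (G₂.cr ⟨e', i'⟩).1 := Sum.inr.inj h'
      have k3 := H₂.2 ⟨e, i⟩ ⟨e', i'⟩ k1 k2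
      exact congrArg (c2 G₁ G₂) k3

theorem fan (H₁ : G₁.FanPlanar) (H₂ : G₂.FanPlanar) :
    (glue G₁ G₂ e₁ e₂ h1 h2).FanPlanar := by
  rintro (e | e)
  · rcases H₁ e with ⟨w, hw⟩ | ⟨w, hw⟩
    · exact Or.inl ⟨Sum.inl w, fun i => congrArg Sum.inl (hw i)⟩
    · exact Or.inr ⟨Sum.inl w, fun i => congrArg Sum.inl (hw i)⟩
  · rcases H₂ e with ⟨w, hw⟩ | ⟨w, hw⟩
    · exact Or.inl ⟨emb G₁ G₂ e₁ e₂ w, fun i => congrArg (emb G₁ G₂ e₁ e₂) (hw i)⟩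
    · exact Or.inr ⟨emb G₁ G₂ e₁ e₂ w, fun i => congrArg (emb G₁ G₂ e₁ e₂) (hw i)⟩

/-! ### connectedness -/

theorem conn (H₁ : Good G₁) (H₂ : Good G₂)
    (A : Set (glue G₁ G₂ e₁ e₂ h1 h2).Dart)
    (hn : ∀ d, (glue G₁ G₂ e₁ e₂ h1 h2).next d ∈ A ↔ d ∈ A)
    (hr : ∀ d, (glue G₁ G₂ e₁ e₂ h1 h2).rev d ∈ A ↔ d ∈ A) : A = ∅ ∨ A = Set.univ := by
  -- all edge ends at one vertex
  have hv : ∀ x y, (glue G₁ G₂ e₁ e₂ h1 h2).vert x = (glue G₁ G₂ e₁ e₂ h1 h2).vert y →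
      ((glue G₁ G₂ e₁ e₂ h1 h2).out x ∈ A ↔ (glue G₁ G₂ e₁ e₂ h1 h2).out y ∈ A) := by
    intro x y hxy
    have := sameCycle_inv (σ := (glue G₁ G₂ e₁ e₂ h1 h2).rot)
      (f := fun z => (glue G₁ G₂ e₁ e₂ h1 h2).out z ∈ A) (fun z => by
        apply propext
        rw [← Data.next_rev_out, hn, hr]) (((glue G₁ G₂ e₁ e₂ h1 h2).rot_vert x y).2 hxy)
    exact iff_of_eq this
  have a1 := H₁.conn {d | i1 G₁ G₂ e₁ e₂ h1 h2 d ∈ A} (fun d => by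
      change i1 G₁ G₂ e₁ e₂ h1 h2 (G₁.next d) ∈ A ↔ i1 G₁ G₂ e₁ e₂ h1 h2 d ∈ A
      rcases G₁.cases_dart d with ⟨-, x, hx⟩ | ⟨-, hx⟩
      · rw [hx, Data.next_arr, ← leave_c1, ← arr_c1]
        rw [← hn ((glue G₁ G₂ e₁ e₂ h1 h2).arr (k1 G₁ G₂ e₁ e₂ h1 h2 x) d.2), Data.next_arr]
        rfl
      · rw [hx, Data.next_rev_out, ← out_s1, ← rev_i1, hr, ← out_s1]
        apply hv
        change gvert G₁ G₂ e₁ e₂ (s1 _) = gvert G₁ G₂ e₁ e₂ (s1 _)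
        rw [gvert_s1, gvert_s1, G₁.vert_rot])
    (fun d => hr (i1 G₁ G₂ e₁ e₂ h1 h2 d))
  have a2 := H₂.conn {d | i2 G₁ G₂ e₁ e₂ h1 h2 d ∈ A} (fun d => by
      change i2 G₁ G₂ e₁ e₂ h1 h2 (G₂.next d) ∈ A ↔ i2 G₁ G₂ e₁ e₂ h1 h2 d ∈ A
      rcases G₂.cases_dart d with ⟨-, x, hx⟩ | ⟨-, hx⟩
      · rw [hx, Data.next_arr, ← leave_c2, ← arr_c2]
        rw [← hn ((glue G₁ G₂ e₁ e₂ h1 h2).arr (k2 G₁ G₂ e₁ e₂ h1 h2 x) d.2), Data.next_arr]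
        rfl
      · rw [hx, Data.next_rev_out, ← out_s2, ← rev_i2, hr, ← out_s2]
        apply hv
        change gvert G₁ G₂ e₁ e₂ (s2 _) = gvert G₁ G₂ e₁ e₂ (s2 _)
        rw [gvert_s2, gvert_s2, G₂.vert_rot])
    (fun d => hr (i2 G₁ G₂ e₁ e₂ h1 h2 d))
  have a3 : i1 G₁ G₂ e₁ e₂ h1 h2 (G₁.out (e₁, false)) ∈ A ↔
      i2 G₁ G₂ e₁ e₂ h1 h2 (G₂.out (e₂, false)) ∈ A := by
    rw [← out_s1, ← out_s2]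
    apply hv
    change gvert G₁ G₂ e₁ e₂ (s1 _) = gvert G₁ G₂ e₁ e₂ (s2 _)
    rw [gvert_s1, gvert_s2, emb_false]
  have b1 : ∀ d, i1 G₁ G₂ e₁ e₂ h1 h2 d ∈ A ↔
      d ∈ ({d | i1 G₁ G₂ e₁ e₂ h1 h2 d ∈ A} : Set G₁.Dart) := fun d => Iff.rfl
  have b2 : ∀ d, i2 G₁ G₂ e₁ e₂ h1 h2 d ∈ A ↔
      d ∈ ({d | i2 G₁ G₂ e₁ e₂ h1 h2 d ∈ A} : Set G₂.Dart) := fun d => Iff.rfl
  rcases a1 with a1 | a1 <;> rcases a2 with a2 | a2 <;> rw [a1] at b1 <;> rw [a2] at b2 <;>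
    simp only [Set.mem_empty_iff_false, Set.mem_univ, iff_false, iff_true] at b1 b2
  · left
    ext d
    rcases i_cases G₁ G₂ e₁ e₂ h1 h2 d with ⟨a, rfl⟩ | ⟨a, rfl⟩
    · simpa using b1 a
    · simpa using b2 a
  · exact absurd (a3.2 (b2 _)) (b1 _)
  · exact absurd (a3.1 (b1 _)) (b2 _)
  · right
    ext d
    rcases i_cases G₁ G₂ e₁ e₂ h1 h2 d with ⟨a, rfl⟩ | ⟨a, rfl⟩
    · simpa using b1 a
    · simpa using b2 a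

/-! ### regions -/

/-- the set of darts with given parts in the two drawings, before the exchange -/
def PP (A₁ : Set G₁.Dart) (A₂ : Set G₂.Dart) : Set (glue G₁ G₂ e₁ e₂ h1 h2).Dart := fun d =>
  (∃ a ∈ A₁, d = i1 G₁ G₂ e₁ e₂ h1 h2 a) ∨ ∃ a ∈ A₂, d = i2 G₁ G₂ e₁ e₂ h1 h2 a

theorem PP_i1 {A₁ : Set G₁.Dart} {A₂ : Set G₂.Dart} (a : G₁.Dart) :
    i1 G₁ G₂ e₁ e₂ h1 h2 a ∈ PP G₁ G₂ e₁ e₂ h1 h2 A₁ A₂ ↔ a ∈ A₁ := by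
  constructor
  · rintro (⟨b, hb, hab⟩ | ⟨b, hb, hab⟩)
    · rwa [i1_inj _ _ _ _ _ _ hab]
    · exact absurd hab (i12 _ _ _ _ _ _ _ _)
  · exact fun h => Or.inl ⟨a, h, rfl⟩

theorem PP_i2 {A₁ : Set G₁.Dart} {A₂ : Set G₂.Dart} (a : G₂.Dart) :
    i2 G₁ G₂ e₁ e₂ h1 h2 a ∈ PP G₁ G₂ e₁ e₂ h1 h2 A₁ A₂ ↔ a ∈ A₂ := by
  constructor
  · rintro (⟨b, hb, hab⟩ | ⟨b, hb, hab⟩)
    · exact absurd hab.symm (i12 _ _ _ _ _ _ _ _)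
    · rwa [i2_inj _ _ _ _ _ _ hab]
  · exact fun h => Or.inr ⟨a, h, rfl⟩

/-- the set of darts with given parts in the two drawings -/
def RR (A₁ : Set G₁.Dart) (A₂ : Set G₂.Dart) : Set (glue G₁ G₂ e₁ e₂ h1 h2).Dart := fun d =>
  tau G₁ G₂ e₁ e₂ h1 h2 d ∈ PP G₁ G₂ e₁ e₂ h1 h2 A₁ A₂

variable {A₁ : Set G₁.Dart} {A₂ : Set G₂.Dart}

theorem RR_j1 (a : G₁.Dart) :
    j1 G₁ G₂ e₁ e₂ h1 h2 a ∈ RR G₁ G₂ e₁ e₂ h1 h2 A₁ A₂ ↔ a ∈ A₁ := by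
  change tau G₁ G₂ e₁ e₂ h1 h2 (tau G₁ G₂ e₁ e₂ h1 h2 _) ∈ PP G₁ G₂ e₁ e₂ h1 h2 A₁ A₂ ↔ _
  rw [tau_tau, PP_i1]

theorem RR_j2 (a : G₂.Dart) :
    j2 G₁ G₂ e₁ e₂ h1 h2 a ∈ RR G₁ G₂ e₁ e₂ h1 h2 A₁ A₂ ↔ a ∈ A₂ := by
  change tau G₁ G₂ e₁ e₂ h1 h2 (tau G₁ G₂ e₁ e₂ h1 h2 _) ∈ PP G₁ G₂ e₁ e₂ h1 h2 A₁ A₂ ↔ _
  rw [tau_tau, PP_i2]

theorem RR_i1 {a : G₁.Dart} (h : a ≠ G₁.out (e₁, true)) :
    i1 G₁ G₂ e₁ e₂ h1 h2 a ∈ RR G₁ G₂ e₁ e₂ h1 h2 A₁ A₂ ↔ a ∈ A₁ := by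
  change tau G₁ G₂ e₁ e₂ h1 h2 _ ∈ PP G₁ G₂ e₁ e₂ h1 h2 A₁ A₂ ↔ _
  rw [tau_i1 _ _ _ _ _ _ h, PP_i1]

theorem RR_i2 {a : G₂.Dart} (h : a ≠ G₂.out (e₂, true)) :
    i2 G₁ G₂ e₁ e₂ h1 h2 a ∈ RR G₁ G₂ e₁ e₂ h1 h2 A₁ A₂ ↔ a ∈ A₂ := by
  change tau G₁ G₂ e₁ e₂ h1 h2 _ ∈ PP G₁ G₂ e₁ e₂ h1 h2 A₁ A₂ ↔ _
  rw [tau_i2 _ _ _ _ _ _ h, PP_i2]

theorem RR_d1 : i1 G₁ G₂ e₁ e₂ h1 h2 (G₁.out (e₁, true)) ∈ RR G₁ G₂ e₁ e₂ h1 h2 A₁ A₂ ↔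
    G₂.out (e₂, true) ∈ A₂ := by
  change tau G₁ G₂ e₁ e₂ h1 h2 _ ∈ PP G₁ G₂ e₁ e₂ h1 h2 A₁ A₂ ↔ _
  rw [tau_left, PP_i2]

theorem RR_d2 : i2 G₁ G₂ e₁ e₂ h1 h2 (G₂.out (e₂, true)) ∈ RR G₁ G₂ e₁ e₂ h1 h2 A₁ A₂ ↔
    G₁.out (e₁, true) ∈ A₁ := by
  change tau G₁ G₂ e₁ e₂ h1 h2 _ ∈ PP G₁ G₂ e₁ e₂ h1 h2 A₁ A₂ ↔ _
  rw [tau_right, PP_i1]

theorem RR_next (l1 : G₁.len e₁ = 0) (l2 : G₂.len e₂ = 0)
    (n1 : ∀ d, G₁.next d ∈ A₁ ↔ d ∈ A₁) (n2 : ∀ d, G₂.next d ∈ A₂ ↔ d ∈ A₂)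
    (d : (glue G₁ G₂ e₁ e₂ h1 h2).Dart) :
    (glue G₁ G₂ e₁ e₂ h1 h2).next d ∈ RR G₁ G₂ e₁ e₂ h1 h2 A₁ A₂ ↔
      d ∈ RR G₁ G₂ e₁ e₂ h1 h2 A₁ A₂ := by
  rcases j_cases G₁ G₂ e₁ e₂ h1 h2 d with ⟨a, rfl⟩ | ⟨a, rfl⟩
  · rw [next_j1 _ _ _ _ _ _ l1 l2, RR_j1, RR_j1, n1]
  · rw [next_j2 _ _ _ _ _ _ l1 l2, RR_j2, RR_j2, n2]

/-- a dart of an uncrossed edge -/
theorem dart_of_edge {V E : Type} (G : Data V E) {e : E} (l : G.len e = 0) (d : G.Dart)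
    (hd : d.1.1 = e) : d = G.out (e, false) ∨ d = G.out (e, true) := by
  rcases d with ⟨⟨e', i⟩, b⟩
  dsimp only at hd
  subst hd
  have hi : i = 0 := by
    apply Fin.ext
    have := i.2
    simp only [Fin.val_zero]
    omega
  subst hi
  have h3 : Fin.last (G.len e') = 0 := Fin.ext (by rw [Fin.val_last, l]; simp)
  cases b
  · right
    simp [Data.out, h3]
  · left
    simp [Data.out]

theorem RR_rev (l1 : G₁.len e₁ = 0) (l2 : G₂.len e₂ = 0) (e e' : E₁ ⊕ E₂)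
    (r1 : ∀ a : G₁.Dart, a.1.1 ≠ e₁ →
      ((a ∈ A₁ ↔ G₁.rev a ∈ A₁) ↔ Sum.inl a.1.1 ≠ e ∧ Sum.inl a.1.1 ≠ e'))
    (r2 : ∀ a : G₂.Dart, a.1.1 ≠ e₂ →
      ((a ∈ A₂ ↔ G₂.rev a ∈ A₂) ↔ Sum.inr a.1.1 ≠ e ∧ Sum.inr a.1.1 ≠ e'))
    (r3 : (G₁.out (e₁, false) ∈ A₁ ↔ G₂.out (e₂, true) ∈ A₂) ↔
      Sum.inl e₁ ≠ e ∧ Sum.inl e₁ ≠ e')
    (r4 : (G₂.out (e₂, false) ∈ A₂ ↔ G₁.out (e₁, true) ∈ A₁) ↔
      Sum.inr e₂ ≠ e ∧ Sum.inr e₂ ≠ e')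
    (d : (glue G₁ G₂ e₁ e₂ h1 h2).Dart) :
    (d ∈ RR G₁ G₂ e₁ e₂ h1 h2 A₁ A₂ ↔
      (glue G₁ G₂ e₁ e₂ h1 h2).rev d ∈ RR G₁ G₂ e₁ e₂ h1 h2 A₁ A₂) ↔ d.1.1 ≠ e ∧ d.1.1 ≠ e' := by
  have ne1 : G₁.out (e₁, false) ≠ G₁.out (e₁, true) := by
    intro h
    have := G₁.out_inj h
    simp at this
  have ne2 : G₂.out (e₂, false) ≠ G₂.out (e₂, true) := by
    intro h
    have := G₂.out_inj h
    simp at this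
  rcases i_cases G₁ G₂ e₁ e₂ h1 h2 d with ⟨a, rfl⟩ | ⟨a, rfl⟩
  · rw [rev_i1]
    by_cases ha : a.1.1 = e₁
    · rcases dart_of_edge G₁ l1 a ha with rfl | rfl
      · rw [← out_eq_rev G₁ l1, RR_i1 _ _ _ _ _ _ ne1, RR_d1]
        exact r3
      · rw [out_eq_rev G₁ l1, G₁.rev_rev, ← out_eq_rev G₁ l1, RR_i1 _ _ _ _ _ _ ne1, RR_d1,
          iff_comm (a := G₂.out (e₂, true) ∈ A₂)]
        exact r3
    · rw [RR_i1 _ _ _ _ _ _ (fun h => ha (by rw [h]; rfl)),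
        RR_i1 _ _ _ _ _ _ (fun h => ha (by
          have := congrArg (fun d : G₁.Dart => d.1.1) h
          exact this))]
      exact r1 a ha
  · rw [rev_i2]
    by_cases ha : a.1.1 = e₂
    · rcases dart_of_edge G₂ l2 a ha with rfl | rfl
      · rw [← out_eq_rev G₂ l2, RR_i2 _ _ _ _ _ _ ne2, RR_d2]
        exact r4
      · rw [out_eq_rev G₂ l2, G₂.rev_rev, ← out_eq_rev G₂ l2, RR_i2 _ _ _ _ _ _ ne2, RR_d2,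
          iff_comm (a := G₁.out (e₁, true) ∈ A₁)]
        exact r4
    · rw [RR_i2 _ _ _ _ _ _ (fun h => ha (by rw [h]; rfl)),
        RR_i2 _ _ _ _ _ _ (fun h => ha (by
          have := congrArg (fun d : G₂.Dart => d.1.1) h
          exact this))]
      exact r2 a ha

/-- the complement -/
theorem RR_compl (d : (glue G₁ G₂ e₁ e₂ h1 h2).Dart) :
    d ∈ RR G₁ G₂ e₁ e₂ h1 h2 A₁ᶜ A₂ᶜ ↔ d ∉ RR G₁ G₂ e₁ e₂ h1 h2 A₁ A₂ := by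
  rcases j_cases G₁ G₂ e₁ e₂ h1 h2 d with ⟨a, rfl⟩ | ⟨a, rfl⟩
  · rw [RR_j1, RR_j1, Set.mem_compl_iff]
  · rw [RR_j2, RR_j2, Set.mem_compl_iff]

/-- A vertex of the first drawing. -/
theorem RR_v1 {v : V₁} (hv : ∀ x, G₁.vert x = v → G₁.out x ∈ A₁)
    (hN : v = G₁.vert (e₁, false) ∨ v = G₁.vert (e₁, true) →
      (∀ d, d ∈ A₂) ∧ G₁.out (e₁, true) ∈ A₁)
    (x : (E₁ ⊕ E₂) × Bool) (hx : (glue G₁ G₂ e₁ e₂ h1 h2).vert x = Sum.inl v) :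
    (glue G₁ G₂ e₁ e₂ h1 h2).out x ∈ RR G₁ G₂ e₁ e₂ h1 h2 A₁ A₂ := by
  rcases s_cases x with ⟨y, rfl⟩ | ⟨y, rfl⟩
  · have hy : G₁.vert y = v := Sum.inl.inj hx
    rw [out_s1]
    by_cases hy' : y = (e₁, true)
    · subst hy'
      rw [RR_d1]
      exact (hN (Or.inr hy.symm)).1 _
    · rw [RR_i1 _ _ _ _ _ _ (fun h => hy' (G₁.out_inj h))]
      exact hv y hy
  · have hy : emb G₁ G₂ e₁ e₂ (G₂.vert y) = Sum.inl v := hx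
    have hv' : v = G₁.vert (e₁, false) ∨ v = G₁.vert (e₁, true) := by
      rcases emb_eq_inl _ _ _ _ hy with ⟨-, h⟩ | ⟨-, h⟩
      · exact Or.inl h
      · exact Or.inr h
    rw [out_s2]
    by_cases hy' : y = (e₂, true)
    · subst hy'
      rw [RR_d2]
      exact (hN hv').2
    · rw [RR_i2 _ _ _ _ _ _ (fun h => hy' (G₂.out_inj h))]
      exact (hN hv').1 _

/-- A vertex of the second drawing. -/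
theorem RR_v2 {v : V₂} (hv : ∀ x, G₂.vert x = v → G₂.out x ∈ A₂)
    (hN : v = G₂.vert (e₂, false) ∨ v = G₂.vert (e₂, true) →
      (∀ d, d ∈ A₁) ∧ G₂.out (e₂, true) ∈ A₂)
    (x : (E₁ ⊕ E₂) × Bool)
    (hx : (glue G₁ G₂ e₁ e₂ h1 h2).vert x = emb G₁ G₂ e₁ e₂ v) :
    (glue G₁ G₂ e₁ e₂ h1 h2).out x ∈ RR G₁ G₂ e₁ e₂ h1 h2 A₁ A₂ := by
  rcases s_cases x with ⟨y, rfl⟩ | ⟨y, rfl⟩
  · have hy : emb G₁ G₂ e₁ e₂ v = Sum.inl (G₁.vert y) := hx.symm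
    have hv' : v = G₂.vert (e₂, false) ∨ v = G₂.vert (e₂, true) := by
      rcases emb_eq_inl _ _ _ _ hy with ⟨h, -⟩ | ⟨h, -⟩
      · exact Or.inl h
      · exact Or.inr h
    rw [out_s1]
    by_cases hy' : y = (e₁, true)
    · subst hy'
      rw [RR_d1]
      exact (hN hv').2
    · rw [RR_i1 _ _ _ _ _ _ (fun h => hy' (G₁.out_inj h))]
      exact (hN hv').1 _
  · have hy : G₂.vert y = v := emb_inj G₁ G₂ e₁ e₂ h1 hx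
    rw [out_s2]
    by_cases hy' : y = (e₂, true)
    · subst hy'
      rw [RR_d2]
      exact (hN (Or.inr hy.symm)).1 _
    · rw [RR_i2 _ _ _ _ _ _ (fun h => hy' (G₂.out_inj h))]
      exact hv y hy

end Glue

end Pool.Agent.Helper94.FP
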