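import Pool.Agent.Helper94.FP.Glue

/-!
# The faces of the glued drawing
-/

set_option autoImplicit false

namespace Pool.Agent.Helper94.FP

open Pool.Agent.Q238.FP

namespace Glue

variable {V₁ E₁ V₂ E₂ : Type} (G₁ : Data V₁ E₁) (G₂ : Data V₂ E₂) (e₁ : E₁) (e₂ : E₂)
  [Finite E₁] [Finite E₂] (h1 : G₁.vert (e₁, false) ≠ G₁.vert (e₁, true))
  (h2 : G₂.vert (e₂, false) ≠ G₂.vert (e₂, true))

/-- the darts of the first drawing -/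
def i1 (d : G₁.Dart) : (glue G₁ G₂ e₁ e₂ h1 h2).Dart := (⟨Sum.inl d.1.1, d.1.2⟩, d.2)

/-- the darts of the second drawing -/
def i2 (d : G₂.Dart) : (glue G₁ G₂ e₁ e₂ h1 h2).Dart := (⟨Sum.inr d.1.1, d.1.2⟩, d.2)

theorem i_cases (d : (glue G₁ G₂ e₁ e₂ h1 h2).Dart) :
    (∃ a, d = i1 G₁ G₂ e₁ e₂ h1 h2 a) ∨ ∃ a, d = i2 G₁ G₂ e₁ e₂ h1 h2 a := by
  rcases d with ⟨⟨e | e, i⟩, b⟩
  · exact Or.inl ⟨(⟨e, i⟩, b), rfl⟩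
  · exact Or.inr ⟨(⟨e, i⟩, b), rfl⟩

theorem i1_inj {a b : G₁.Dart} (h : i1 G₁ G₂ e₁ e₂ h1 h2 a = i1 G₁ G₂ e₁ e₂ h1 h2 b) : a = b := by
  rcases a with ⟨⟨e, i⟩, c⟩
  rcases b with ⟨⟨e', i'⟩, c'⟩
  unfold i1 at h
  injection h with h3 h4
  injection h3 with h5 h6
  dsimp only at h4 h5 h6
  injection h5 with h5
  subst h5
  subst h4
  rw [eq_of_heq h6]

theorem i2_inj {a b : G₂.Dart} (h : i2 G₁ G₂ e₁ e₂ h1 h2 a = i2 G₁ G₂ e₁ e₂ h1 h2 b) : a = b := by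
  rcases a with ⟨⟨e, i⟩, c⟩
  rcases b with ⟨⟨e', i'⟩, c'⟩
  unfold i2 at h
  injection h with h3 h4
  injection h3 with h5 h6
  dsimp only at h4 h5 h6
  injection h5 with h5
  subst h5
  subst h4
  rw [eq_of_heq h6]

theorem i12 (a : G₁.Dart) (b : G₂.Dart) :
    i1 G₁ G₂ e₁ e₂ h1 h2 a ≠ i2 G₁ G₂ e₁ e₂ h1 h2 b := by
  intro h
  have := congrArg (fun d => d.1.1) h
  simp [i1, i2] at this

theorem rev_i1 (d : G₁.Dart) : (glue G₁ G₂ e₁ e₂ h1 h2).rev (i1 G₁ G₂ e₁ e₂ h1 h2 d) =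
    i1 G₁ G₂ e₁ e₂ h1 h2 (G₁.rev d) := rfl

theorem rev_i2 (d : G₂.Dart) : (glue G₁ G₂ e₁ e₂ h1 h2).rev (i2 G₁ G₂ e₁ e₂ h1 h2 d) =
    i2 G₁ G₂ e₁ e₂ h1 h2 (G₂.rev d) := rfl

theorem out_s1 (x : E₁ × Bool) : (glue G₁ G₂ e₁ e₂ h1 h2).out (s1 x) =
    i1 G₁ G₂ e₁ e₂ h1 h2 (G₁.out x) := by
  rcases x with ⟨e, b⟩
  cases b <;> rfl

theorem out_s2 (x : E₂ × Bool) : (glue G₁ G₂ e₁ e₂ h1 h2).out (s2 x) =
    i2 G₁ G₂ e₁ e₂ h1 h2 (G₂.out x) := by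
  rcases x with ⟨e, b⟩
  cases b <;> rfl

/-- crossing points of the first drawing -/
def k1 (x : Σ e, Fin (G₁.len e)) : Σ e, Fin ((glue G₁ G₂ e₁ e₂ h1 h2).len e) :=
  ⟨Sum.inl x.1, x.2⟩

/-- crossing points of the second drawing -/
def k2 (x : Σ e, Fin (G₂.len e)) : Σ e, Fin ((glue G₁ G₂ e₁ e₂ h1 h2).len e) :=
  ⟨Sum.inr x.1, x.2⟩

theorem leave_c1 (x : Σ e, Fin (G₁.len e)) (b : Bool) :
    (glue G₁ G₂ e₁ e₂ h1 h2).leave (k1 G₁ G₂ e₁ e₂ h1 h2 x) b = i1 G₁ G₂ e₁ e₂ h1 h2 (G₁.leave x b) := by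
  cases b <;> rfl

theorem leave_c2 (x : Σ e, Fin (G₂.len e)) (b : Bool) :
    (glue G₁ G₂ e₁ e₂ h1 h2).leave (k2 G₁ G₂ e₁ e₂ h1 h2 x) b = i2 G₁ G₂ e₁ e₂ h1 h2 (G₂.leave x b) := by
  cases b <;> rfl

theorem arr_c1 (x : Σ e, Fin (G₁.len e)) (b : Bool) :
    (glue G₁ G₂ e₁ e₂ h1 h2).arr (k1 G₁ G₂ e₁ e₂ h1 h2 x) b = i1 G₁ G₂ e₁ e₂ h1 h2 (G₁.arr x b) := by
  unfold Data.arr
  rw [leave_c1, rev_i1]

theorem arr_c2 (x : Σ e, Fin (G₂.len e)) (b : Bool) :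
    (glue G₁ G₂ e₁ e₂ h1 h2).arr (k2 G₁ G₂ e₁ e₂ h1 h2 x) b = i2 G₁ G₂ e₁ e₂ h1 h2 (G₂.arr x b) := by
  unfold Data.arr
  rw [leave_c2, rev_i2]

theorem cr_c1 (x : Σ e, Fin (G₁.len e)) :
    (glue G₁ G₂ e₁ e₂ h1 h2).cr (k1 G₁ G₂ e₁ e₂ h1 h2 x) = k1 G₁ G₂ e₁ e₂ h1 h2 (G₁.cr x) := rfl

theorem cr_c2 (x : Σ e, Fin (G₂.len e)) :
    (glue G₁ G₂ e₁ e₂ h1 h2).cr (k2 G₁ G₂ e₁ e₂ h1 h2 x) = k2 G₁ G₂ e₁ e₂ h1 h2 (G₂.cr x) := rfl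

theorem toLeft_c1 (x : Σ e, Fin (G₁.len e)) :
    (glue G₁ G₂ e₁ e₂ h1 h2).toLeft (k1 G₁ G₂ e₁ e₂ h1 h2 x) = G₁.toLeft x := rfl

theorem toLeft_c2 (x : Σ e, Fin (G₂.len e)) :
    (glue G₁ G₂ e₁ e₂ h1 h2).toLeft (k2 G₁ G₂ e₁ e₂ h1 h2 x) = G₂.toLeft x := rfl

open Classical in
/-- the exchange of the right sides of the two edges -/
noncomputable def tau : Equiv.Perm (glue G₁ G₂ e₁ e₂ h1 h2).Dart :=
  Equiv.swap (i1 G₁ G₂ e₁ e₂ h1 h2 (G₁.out (e₁, true))) (i2 G₁ G₂ e₁ e₂ h1 h2 (G₂.out (e₂, true)))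

open Classical in
theorem tau_tau (d : (glue G₁ G₂ e₁ e₂ h1 h2).Dart) :
    tau G₁ G₂ e₁ e₂ h1 h2 (tau G₁ G₂ e₁ e₂ h1 h2 d) = d := by
  unfold tau
  exact Equiv.swap_apply_self _ _ _

open Classical in
theorem tau_left : tau G₁ G₂ e₁ e₂ h1 h2 (i1 G₁ G₂ e₁ e₂ h1 h2 (G₁.out (e₁, true))) =
    i2 G₁ G₂ e₁ e₂ h1 h2 (G₂.out (e₂, true)) := by
  unfold tau
  exact Equiv.swap_apply_left _ _

open Classical in
theorem tau_right : tau G₁ G₂ e₁ e₂ h1 h2 (i2 G₁ G₂ e₁ e₂ h1 h2 (G₂.out (e₂, true))) =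
    i1 G₁ G₂ e₁ e₂ h1 h2 (G₁.out (e₁, true)) := by
  unfold tau
  exact Equiv.swap_apply_right _ _

open Classical in
theorem tau_i1 {d : G₁.Dart} (h : d ≠ G₁.out (e₁, true)) :
    tau G₁ G₂ e₁ e₂ h1 h2 (i1 G₁ G₂ e₁ e₂ h1 h2 d) = i1 G₁ G₂ e₁ e₂ h1 h2 d := by
  unfold tau
  apply Equiv.swap_apply_of_ne_of_ne
  · intro h'
    exact h (i1_inj _ _ _ _ _ _ h')
  · exact i12 _ _ _ _ _ _ _ _

open Classical in
theorem tau_i2 {d : G₂.Dart} (h : d ≠ G₂.out (e₂, true)) :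
    tau G₁ G₂ e₁ e₂ h1 h2 (i2 G₁ G₂ e₁ e₂ h1 h2 d) = i2 G₁ G₂ e₁ e₂ h1 h2 d := by
  unfold tau
  apply Equiv.swap_apply_of_ne_of_ne
  · exact (i12 _ _ _ _ _ _ _ _).symm
  · intro h'
    exact h (i2_inj _ _ _ _ _ _ h')

theorem out_eq_rev {V E : Type} (G : Data V E) {e : E} (h : G.len e = 0) :
    G.out (e, true) = G.rev (G.out (e, false)) := by
  have h3 : Fin.last (G.len e) = 0 := Fin.ext (by rw [Fin.val_last, h]; simp)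
  simp only [Data.out, Data.rev, if_true, Bool.false_eq_true, if_false, Bool.not_true,
    Bool.not_false, h3]

open Classical in
/-- `tau` at the edge ends, seen from the edge end -/
theorem tau_out (x : (E₁ ⊕ E₂) × Bool) :
    tau G₁ G₂ e₁ e₂ h1 h2 ((glue G₁ G₂ e₁ e₂ h1 h2).out x) =
      (glue G₁ G₂ e₁ e₂ h1 h2).out (Equiv.swap (s1 (e₁, true)) (s2 (e₂, true)) x) := by
  by_cases hx1 : x = s1 (e₁, true)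
  · subst hx1
    rw [Equiv.swap_apply_left, out_s1, out_s2, tau_left]
  · by_cases hx2 : x = s2 (e₂, true)
    · subst hx2
      rw [Equiv.swap_apply_right, out_s1, out_s2, tau_right]
    · rw [Equiv.swap_apply_of_ne_of_ne hx1 hx2]
      unfold tau
      apply Equiv.swap_apply_of_ne_of_ne
      · intro h'
        rw [← out_s1] at h'
        exact hx1 ((glue G₁ G₂ e₁ e₂ h1 h2).out_inj h')
      · intro h'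
        rw [← out_s2] at h'
        exact hx2 ((glue G₁ G₂ e₁ e₂ h1 h2).out_inj h')

open Classical in
/-- `tau` at the edge ends, seen from the middle of the edge -/
theorem tau_rev_out (l1 : G₁.len e₁ = 0) (l2 : G₂.len e₂ = 0) (x : (E₁ ⊕ E₂) × Bool) :
    tau G₁ G₂ e₁ e₂ h1 h2 ((glue G₁ G₂ e₁ e₂ h1 h2).rev ((glue G₁ G₂ e₁ e₂ h1 h2).out x)) =
      (glue G₁ G₂ e₁ e₂ h1 h2).rev ((glue G₁ G₂ e₁ e₂ h1 h2).out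
        (Equiv.swap (s1 (e₁, false)) (s2 (e₂, false)) x)) := by
  have k1 : i1 G₁ G₂ e₁ e₂ h1 h2 (G₁.out (e₁, true)) =
      (glue G₁ G₂ e₁ e₂ h1 h2).rev ((glue G₁ G₂ e₁ e₂ h1 h2).out (s1 (e₁, false))) := by
    rw [out_s1, rev_i1, out_eq_rev G₁ l1]
  have k2 : i2 G₁ G₂ e₁ e₂ h1 h2 (G₂.out (e₂, true)) =
      (glue G₁ G₂ e₁ e₂ h1 h2).rev ((glue G₁ G₂ e₁ e₂ h1 h2).out (s2 (e₂, false))) := by
    rw [out_s2, rev_i2, out_eq_rev G₂ l2]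
  by_cases hx1 : x = s1 (e₁, false)
  · subst hx1
    rw [Equiv.swap_apply_left, ← k1, ← k2, tau_left]
  · by_cases hx2 : x = s2 (e₂, false)
    · subst hx2
      rw [Equiv.swap_apply_right, ← k1, ← k2, tau_right]
    · rw [Equiv.swap_apply_of_ne_of_ne hx1 hx2]
      unfold tau
      apply Equiv.swap_apply_of_ne_of_ne
      · intro h'
        rw [k1] at h'
        exact hx1 ((glue G₁ G₂ e₁ e₂ h1 h2).out_inj ((glue G₁ G₂ e₁ e₂ h1 h2).rev_inj h'))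
      · intro h'
        rw [k2] at h'
        exact hx2 ((glue G₁ G₂ e₁ e₂ h1 h2).out_inj ((glue G₁ G₂ e₁ e₂ h1 h2).rev_inj h'))

/-- the darts of the first drawing, with the exchange -/
noncomputable def j1 (d : G₁.Dart) : (glue G₁ G₂ e₁ e₂ h1 h2).Dart :=
  tau G₁ G₂ e₁ e₂ h1 h2 (i1 G₁ G₂ e₁ e₂ h1 h2 d)

/-- the darts of the second drawing, with the exchange -/
noncomputable def j2 (d : G₂.Dart) : (glue G₁ G₂ e₁ e₂ h1 h2).Dart :=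
  tau G₁ G₂ e₁ e₂ h1 h2 (i2 G₁ G₂ e₁ e₂ h1 h2 d)

theorem j_cases (d : (glue G₁ G₂ e₁ e₂ h1 h2).Dart) :
    (∃ a, d = j1 G₁ G₂ e₁ e₂ h1 h2 a) ∨ ∃ a, d = j2 G₁ G₂ e₁ e₂ h1 h2 a := by
  rcases i_cases G₁ G₂ e₁ e₂ h1 h2 (tau G₁ G₂ e₁ e₂ h1 h2 d) with ⟨a, ha⟩ | ⟨a, ha⟩
  · exact Or.inl ⟨a, by rw [j1, ← ha, tau_tau]⟩
  · exact Or.inr ⟨a, by rw [j2, ← ha, tau_tau]⟩

open Classical in
theorem next_rev_out' (x : (E₁ ⊕ E₂) × Bool) (l1 : G₁.len e₁ = 0) (l2 : G₂.len e₂ = 0) :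
    (glue G₁ G₂ e₁ e₂ h1 h2).next (tau G₁ G₂ e₁ e₂ h1 h2
      ((glue G₁ G₂ e₁ e₂ h1 h2).rev ((glue G₁ G₂ e₁ e₂ h1 h2).out x))) =
      tau G₁ G₂ e₁ e₂ h1 h2 ((glue G₁ G₂ e₁ e₂ h1 h2).out (grot0 G₁ G₂ x)) := by
  rw [tau_rev_out G₁ G₂ e₁ e₂ h1 h2 l1 l2, Data.next_rev_out, tau_out]
  have h3 : grot G₁ G₂ e₁ e₂ (Equiv.swap (s1 (e₁, false)) (s2 (e₂, false)) x) =
      Equiv.swap (s1 (e₁, true)) (s2 (e₂, true)) (grot0 G₁ G₂ x) := by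
    unfold grot
    rw [Equiv.Perm.mul_apply, Equiv.Perm.mul_apply, Equiv.swap_apply_self]
  exact congrArg _ h3

theorem next_j1 (l1 : G₁.len e₁ = 0) (l2 : G₂.len e₂ = 0) (d : G₁.Dart) :
    (glue G₁ G₂ e₁ e₂ h1 h2).next (j1 G₁ G₂ e₁ e₂ h1 h2 d) =
      j1 G₁ G₂ e₁ e₂ h1 h2 (G₁.next d) := by
  rcases G₁.cases_dart d with ⟨hd, x, hx⟩ | ⟨-, hx⟩
  · have hne : ∀ y : Σ e, Fin (G₁.len e), ∀ z : G₁.Dart, z.1.1 = y.1 → z ≠ G₁.out (e₁, true) := by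
      rintro ⟨e, i⟩ z hz rfl
      have : e = e₁ := hz.symm
      subst this
      have := i.2
      omega
    rw [hx, j1, j1, tau_i1 _ _ _ _ _ _ (hne x _ (G₁.ed_arr x _)), ← arr_c1, Data.next_arr,
      Data.next_arr, cr_c1, leave_c1, toLeft_c1,
      tau_i1 _ _ _ _ _ _ (hne (G₁.cr x) _ (G₁.ed_leave _ _))]
  · rw [hx, j1, j1, Data.next_rev_out, ← rev_i1, ← out_s1, next_rev_out' _ _ _ _ _ _ _ l1 l2,
      grot0_s1, out_s1]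

theorem next_j2 (l1 : G₁.len e₁ = 0) (l2 : G₂.len e₂ = 0) (d : G₂.Dart) :
    (glue G₁ G₂ e₁ e₂ h1 h2).next (j2 G₁ G₂ e₁ e₂ h1 h2 d) =
      j2 G₁ G₂ e₁ e₂ h1 h2 (G₂.next d) := by
  rcases G₂.cases_dart d with ⟨hd, x, hx⟩ | ⟨-, hx⟩
  · have hne : ∀ y : Σ e, Fin (G₂.len e), ∀ z : G₂.Dart, z.1.1 = y.1 → z ≠ G₂.out (e₂, true) := by
      rintro ⟨e, i⟩ z hz rfl
      have : e = e₂ := hz.symm
      subst this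
      have := i.2
      omega
    rw [hx, j2, j2, tau_i2 _ _ _ _ _ _ (hne x _ (G₂.ed_arr x _)), ← arr_c2, Data.next_arr,
      Data.next_arr, cr_c2, leave_c2, toLeft_c2,
      tau_i2 _ _ _ _ _ _ (hne (G₂.cr x) _ (G₂.ed_leave _ _))]
  · rw [hx, j2, j2, Data.next_rev_out, ← rev_i2, ← out_s2, next_rev_out' _ _ _ _ _ _ _ l1 l2,
      grot0_s2, out_s2]

end Glue

end Pool.Agent.Helper94.FP
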