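import Pool.Agent.Q238.FP.Inst

/-!
# Connected drawings at the level of darts
-/

set_option autoImplicit false

namespace Pool.Agent.Helper94.FP

open Pool.Agent.Q238.FP

/-- An invariant of a permutation is constant on its cycles. -/
theorem sameCycle_inv {α β : Type*} {σ : Equiv.Perm α} {f : α → β} (h : ∀ x, f (σ x) = f x)
    {x y : α} (hxy : σ.SameCycle x y) : f x = f y := by
  obtain ⟨i, rfl⟩ := hxy
  have h' : ∀ x, f (σ⁻¹ x) = f x := by
    intro x
    have := h (σ⁻¹ x)
    rw [← Equiv.Perm.mul_apply, mul_inv_cancel, Equiv.Perm.one_apply] at this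
    exact this.symm
  have hn : ∀ (n : ℕ) (x : α), f ((σ ^ n) x) = f x := by
    intro n
    induction n with
    | zero => intro x; rfl
    | succ n ih => intro x; rw [pow_succ, Equiv.Perm.mul_apply, ih, h]
  have hn' : ∀ (n : ℕ) (x : α), f ((σ⁻¹ ^ n) x) = f x := by
    intro n
    induction n with
    | zero => intro x; rfl
    | succ n ih => intro x; rw [pow_succ, Equiv.Perm.mul_apply, ih, h']
  rcases i.eq_nat_or_neg with ⟨n, rfl | rfl⟩
  · rw [zpow_natCast]; exact (hn n x).symm
  · rw [zpow_neg, zpow_natCast, ← inv_pow]; exact (hn' n x).symm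

/-- The facts about a connected drawing which we use. -/
structure Good {V E : Type} (G : Data V E) : Prop where
  inc : ∀ v, ∃ x, G.vert x = v
  conn : ∀ A : Set G.Dart, (∀ d, G.next d ∈ A ↔ d ∈ A) → (∀ d, G.rev d ∈ A ↔ d ∈ A) →
    A = ∅ ∨ A = Set.univ
  euler : 2 * Nat.card V + Nat.card (Σ e, Fin (G.len e)) + 2 * Nat.card G.Walk =
    2 * Nat.card (Σ e, Fin (G.len e + 1)) + 4
  loopless : G.Loopless
  simple : G.Simple
  fan : G.FanPlanar
  nonhom : ∀ e e' : E, e ≠ e' → ({G.vert (e, false), G.vert (e, true)} : Set V) =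
      {G.vert (e', false), G.vert (e', true)} →
    ∃ A : Set G.Dart, (∀ d, G.next d ∈ A ↔ d ∈ A) ∧
      (∀ d, (d ∈ A ↔ G.rev d ∈ A) ↔ d.1.1 ≠ e ∧ d.1.1 ≠ e') ∧
      (∃ v, v ≠ G.vert (e, false) ∧ v ≠ G.vert (e, true) ∧ ∀ x, G.vert x = v → G.out x ∈ A) ∧
      ∃ v, v ≠ G.vert (e, false) ∧ v ≠ G.vert (e, true) ∧ ∀ x, G.vert x = v → G.out x ∉ A

namespace Good

variable {V E : Type} {G : Data V E}

theorem iso_empty (h : Good G) : IsEmpty G.Iso := by
  refine ⟨fun v => ?_⟩
  obtain ⟨x, hx⟩ := h.inc v.1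
  exact v.2 x hx

/-- the set of darts of a set of faces -/
def lift (A : Set G.Dart) (hA : ∀ d, G.next d ∈ A ↔ d ∈ A) : Set G.Walk :=
  fun w => Quot.lift (fun d => d ∈ A) (fun a b (h : G.next a = b) => by
    rw [← h]; exact propext (hA a).symm) w

theorem mem_lift (A : Set G.Dart) (hA : ∀ d, G.next d ∈ A ↔ d ∈ A) (d : G.Dart) :
    (Quot.mk _ d : G.Walk) ∈ lift A hA ↔ d ∈ A := Iff.rfl

theorem comp_card (h : Good G) [Nonempty E] : Nat.card G.Comp = 1 := by
  obtain ⟨e⟩ := ‹Nonempty E›
  rw [Nat.card_eq_one_iff_unique]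
  refine ⟨⟨?_⟩, ⟨Quot.mk _ (⟨e, 0⟩, true)⟩⟩
  intro a b
  induction a using Quot.ind with
  | mk a =>
  induction b using Quot.ind with
  | mk b =>
    have := h.conn {d | (Quot.mk _ d : G.Comp) = Quot.mk _ a} (fun d => by
        have h1 : (Quot.mk _ d : G.Comp) = Quot.mk _ (G.next d) := Quot.sound (Or.inl rfl)
        rw [Set.mem_ofPred_eq, Set.mem_ofPred_eq, h1])
      (fun d => by
        have h1 : (Quot.mk _ d : G.Comp) = Quot.mk _ (G.rev d) := Quot.sound (Or.inr rfl)
        rw [Set.mem_ofPred_eq, Set.mem_ofPred_eq, h1])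
    rcases this with h1 | h1
    · exfalso
      have : a ∈ ({d | (Quot.mk _ d : G.Comp) = Quot.mk _ a} : Set G.Dart) := rfl
      rw [h1] at this
      exact this
    · have : b ∈ ({d | (Quot.mk _ d : G.Comp) = Quot.mk _ a} : Set G.Dart) := by
        rw [h1]; trivial
      exact this.symm

/-- The drawing, its faces being the boundary walks. -/
noncomputable def drawing (h : Good G) [Nonempty E] : Drawing V E G.Walk where
  toData := G
  face := fun d => Quot.mk _ d
  loc := fun v => Quot.mk _ (G.out (h.inc v).choose)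
  face_next := fun d => by
    have h1 : (Quot.mk _ d : G.Walk) = Quot.mk _ (G.next d) := Quot.sound rfl
    exact h1.symm
  face_loc := fun x => ⟨(h.inc (G.vert x)).choose, (h.inc (G.vert x)).choose_spec, rfl⟩
  face_surj := fun f => by
    induction f using Quot.ind with
    | mk d => exact Or.inl ⟨d, rfl⟩
  euler := by
    have := h.iso_empty
    rw [h.comp_card, Nat.card_of_isEmpty (α := G.Iso)]
    have := h.euler
    omega
  card_face := by
    have := h.iso_empty
    rw [h.comp_card, Nat.card_of_isEmpty (α := G.Iso)]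
  conn := fun A hA => by
    rcases h.conn {d | (Quot.mk _ d : G.Walk) ∈ A} (fun d => by
        have h1 : (Quot.mk _ d : G.Walk) = Quot.mk _ (G.next d) := Quot.sound rfl
        rw [Set.mem_ofPred_eq, Set.mem_ofPred_eq, h1])
      (fun d => (hA d).symm) with h1 | h1
    · left
      ext w
      induction w using Quot.ind with
      | mk d =>
        have : d ∈ ({d | (Quot.mk _ d : G.Walk) ∈ A} : Set G.Dart) ↔ d ∈ (∅ : Set G.Dart) := by
          rw [h1]
        simpa using this
    · right
      ext w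
      induction w using Quot.ind with
      | mk d =>
        have : d ∈ ({d | (Quot.mk _ d : G.Walk) ∈ A} : Set G.Dart) ↔
            d ∈ (Set.univ : Set G.Dart) := by
          rw [h1]
        simpa using this

theorem nonHomotopic (h : Good G) [Nonempty E] : h.drawing.NonHomotopic := by
  intro e e' hne hp
  obtain ⟨A, hA, hr, ⟨v, hv1, hv2, hv3⟩, ⟨w, hw1, hw2, hw3⟩⟩ := h.nonhom e e' hne hp
  refine ⟨lift A hA, fun d => ?_, ⟨v, hv1, hv2, ?_⟩, ⟨w, hw1, hw2, ?_⟩⟩
  · exact hr d
  · exact hv3 _ (h.inc v).choose_spec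
  · exact hw3 _ (h.inc w).choose_spec

end Good

/-- There is a fan-planar multigraph without homotopic parallel edges with `n` vertices and `m`
edges. -/
def Has (n m : ℕ) : Prop :=
  ∃ (V E F : Type) (_ : Fintype V) (_ : Fintype E) (_ : Finite F) (G : Drawing V E F),
    G.Loopless ∧ G.Simple ∧ G.FanPlanar ∧ G.NonHomotopic ∧ Fintype.card V = n ∧
      Fintype.card E = m

/-- connected, with an uncrossed edge -/
def Tight (n m : ℕ) : Prop :=
  ∃ (V E : Type) (_ : Finite V) (_ : Finite E) (G : Data V E) (e : E),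
    Good G ∧ G.len e = 0 ∧ Nat.card V = n ∧ Nat.card E = m

theorem Tight.has {n m : ℕ} (h : Tight n m) : Has n m := by
  obtain ⟨V, E, hV, hE, G, e, hG, -, hn, hm⟩ := h
  have : Nonempty E := ⟨e⟩
  have := Fintype.ofFinite V
  have := Fintype.ofFinite E
  refine ⟨V, E, G.Walk, inferInstance, inferInstance, inferInstance, hG.drawing, hG.loopless,
    hG.simple, hG.fan, hG.nonHomotopic, ?_, ?_⟩
  · rw [← Nat.card_eq_fintype_card, hn]
  · rw [← Nat.card_eq_fintype_card, hm]

end Pool.Agent.Helper94.FP
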