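import Pool.Agent.Helper94.FP.Good

/-!
# Merging two cycles of a permutation
-/

set_option autoImplicit false

namespace Pool.Agent.Helper94.FP

variable {α : Type*} [Finite α] [DecidableEq α]

theorem merge_aux (σ : Equiv.Perm α) {a b : α} (h : ¬ σ.SameCycle a b) :
    (σ * Equiv.swap a b).SameCycle a b := by
  by_contra hc
  have key : ∀ i : ℕ, (σ * Equiv.swap a b).SameCycle a ((σ ^ (i + 1)) b) := by
    intro i
    induction i with
    | zero =>
      have : (σ ^ (0 + 1)) b = (σ * Equiv.swap a b) a := by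
        simp
      rw [this]
      exact Equiv.Perm.sameCycle_apply_right.2 (Equiv.Perm.SameCycle.refl _ _)
    | succ i ih =>
      set z := (σ ^ (i + 1)) b with hz
      have h1 : z ≠ b := by
        intro h1
        rw [h1] at ih
        exact hc ih
      have h2 : z ≠ a := by
        intro h2
        apply h
        refine Equiv.Perm.SameCycle.symm ⟨(i + 1 : ℕ), ?_⟩
        rw [zpow_natCast, ← hz, h2]
      have h3 : (σ ^ (i + 1 + 1)) b = (σ * Equiv.swap a b) z := by
        rw [Equiv.Perm.mul_apply, Equiv.swap_apply_of_ne_of_ne h2 h1, pow_succ',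
          Equiv.Perm.mul_apply]
      rw [h3]
      exact Equiv.Perm.sameCycle_apply_right.2 ih
  have h4 := key (orderOf σ - 1)
  have h5 : orderOf σ - 1 + 1 = orderOf σ := Nat.sub_add_cancel (orderOf_pos σ)
  rw [h5, pow_orderOf_eq_one] at h4
  exact hc h4

theorem merge_mono (σ : Equiv.Perm α) {a b : α} (h : ¬ σ.SameCycle a b) {x y : α}
    (hxy : σ.SameCycle x y) : (σ * Equiv.swap a b).SameCycle x y := by
  have hab := merge_aux σ h
  set τ := σ * Equiv.swap a b with hτ
  have step : ∀ z, τ.SameCycle z (σ z) := by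
    intro z
    by_cases hza : z = a
    · subst hza
      have : σ z = τ b := by simp [hτ]
      rw [this]
      exact Equiv.Perm.sameCycle_apply_right.2 hab
    · by_cases hzb : z = b
      · subst hzb
        have : σ z = τ a := by simp [hτ]
        rw [this]
        exact Equiv.Perm.sameCycle_apply_right.2 hab.symm
      · have : σ z = τ z := by
          rw [hτ, Equiv.Perm.mul_apply, Equiv.swap_apply_of_ne_of_ne hza hzb]
        rw [this]
        exact Equiv.Perm.sameCycle_apply_right.2 (Equiv.Perm.SameCycle.refl _ _)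
  have h1 := sameCycle_inv (σ := σ) (f := fun z => τ.SameCycle x z) (fun z => by
    apply propext
    exact ⟨fun h => h.trans (step z).symm, fun h => h.trans (step z)⟩) hxy
  exact h1.mp (Equiv.Perm.SameCycle.refl _ _)

theorem merge_aux' (σ : Equiv.Perm α) {a b : α} (h : ¬ σ.SameCycle a b) :
    (Equiv.swap a b * σ).SameCycle a b := by
  have h1 : ¬ (σ⁻¹).SameCycle a b := by rwa [Equiv.Perm.sameCycle_inv]
  have h2 := merge_aux σ⁻¹ h1
  rw [← Equiv.Perm.sameCycle_inv, mul_inv_rev, inv_inv, Equiv.swap_inv] at h2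
  exact h2

theorem merge_mono' (σ : Equiv.Perm α) {a b : α} (h : ¬ σ.SameCycle a b) {x y : α}
    (hxy : σ.SameCycle x y) : (Equiv.swap a b * σ).SameCycle x y := by
  have h1 : ¬ (σ⁻¹).SameCycle a b := by rwa [Equiv.Perm.sameCycle_inv]
  have h2 := merge_mono σ⁻¹ h1 (x := x) (y := y) (by rwa [Equiv.Perm.sameCycle_inv])
  rw [← Equiv.Perm.sameCycle_inv, mul_inv_rev, inv_inv, Equiv.swap_inv] at h2
  exact h2

end Pool.Agent.Helper94.FP
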