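import Pool.Agent.Helper94.FP.Good

/-!
# Drawings given by tables
-/

set_option autoImplicit false

namespace Pool.Agent.Helper94.FP

open Pool.Agent.Q238.FP

/-- entry number `i` of a table with entries below `64` -/
def tb (N i : ℕ) : ℕ := N / 64 ^ i % 64

/-- Tables for a drawing with `n + 1` vertices, `m + 1` edges and `f + 1` faces. -/
structure Tab where
  n : ℕ
  m : ℕ
  f : ℕ
  /-- end vertices -/
  V : ℕ
  /-- numbers of crossing points -/
  L : ℕ
  /-- crossing edge -/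
  CE : ℕ
  /-- number on the crossing edge -/
  CJ : ℕ
  /-- sides -/
  T : ℕ
  /-- rotation -/
  R : ℕ
  /-- inverse rotation -/
  RI : ℕ
  /-- steps to the root of a vertex -/
  PR : ℕ
  /-- roots of the vertices -/
  RV : ℕ
  /-- faces -/
  F : ℕ
  /-- steps to the root of a face -/
  PD : ℕ
  /-- roots of the faces -/
  RD : ℕ
  /-- regions -/
  G : ℕ

namespace Tab

variable (t : Tab)

/-- vertices -/
abbrev VT : Type := Fin (t.n + 1)

/-- edges -/
abbrev ET : Type := Fin (t.m + 1)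

/-- number of an edge end -/
def ix (x : t.ET × Bool) : ℕ := 2 * x.1 + x.2.toNat

/-- edge end of a number -/
def xi (k : ℕ) : t.ET × Bool := (⟨k / 2 % (t.m + 1), Nat.mod_lt _ (Nat.succ_pos _)⟩, k % 2 == 1)

/-- end vertices -/
def vert (x : t.ET × Bool) : t.VT := ⟨tb t.V (t.ix x) % (t.n + 1), Nat.mod_lt _ (Nat.succ_pos _)⟩

/-- numbers of crossing points -/
def len (e : t.ET) : ℕ := tb t.L e

/-- the crossing edge -/
def ce (x : Σ e, Fin (t.len e)) : t.ET :=
  ⟨tb t.CE (4 * x.1 + x.2) % (t.m + 1), Nat.mod_lt _ (Nat.succ_pos _)⟩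

/-- crossing points -/
def cr (x : Σ e, Fin (t.len e)) : Σ e, Fin (t.len e) :=
  if h : tb t.CJ (4 * x.1 + x.2) < t.len (t.ce x) then
    ⟨t.ce x, ⟨tb t.CJ (4 * x.1 + x.2), h⟩⟩
  else x

/-- sides -/
def toLeft (x : Σ e, Fin (t.len e)) : Bool := tb t.T (4 * x.1 + x.2) == 1

/-- rotation -/
def rot (x : t.ET × Bool) : t.ET × Bool := t.xi (tb t.R (t.ix x))

/-- inverse rotation -/
def rotI (x : t.ET × Bool) : t.ET × Bool := t.xi (tb t.RI (t.ix x))

/-- steps to the root -/
def pr (x : t.ET × Bool) : ℕ := tb t.PR (t.ix x)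

/-- roots -/
def rv (v : t.VT) : t.ET × Bool := t.xi (tb t.RV v)

/-- The first group of conditions. -/
structure P1 : Prop where
  cr_cr : ∀ x, t.cr (t.cr x) = x
  toLeft_cr : ∀ x, t.toLeft (t.cr x) = !t.toLeft x
  rot1 : ∀ x, t.rotI (t.rot x) = x
  rot2 : ∀ x, t.rot (t.rotI x) = x
  vert_rot : ∀ x, t.vert (t.rot x) = t.vert x
  pr_rot : ∀ x, x = t.rv (t.vert x) ∨ t.pr (t.rot x) < t.pr x
  vert_rv : ∀ v, t.vert (t.rv v) = v

/-- The first group of conditions. -/
def Q1 : Prop :=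
  (∀ x, t.cr (t.cr x) = x) ∧ (∀ x, t.toLeft (t.cr x) = !t.toLeft x) ∧
  (∀ x, t.rotI (t.rot x) = x) ∧ (∀ x, t.rot (t.rotI x) = x) ∧
  (∀ x, t.vert (t.rot x) = t.vert x) ∧
  (∀ x, x = t.rv (t.vert x) ∨ t.pr (t.rot x) < t.pr x) ∧
  ∀ v, t.vert (t.rv v) = v

instance : Decidable t.Q1 := by
  unfold Q1
  infer_instance

variable {t}

theorem Q1.p1 (h : t.Q1) : t.P1 := ⟨h.1, h.2.1, h.2.2.1, h.2.2.2.1, h.2.2.2.2.1, h.2.2.2.2.2.1,
  h.2.2.2.2.2.2⟩

/-- the rotation as a permutation -/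
def rotP (h : t.P1) : Equiv.Perm (t.ET × Bool) := ⟨t.rot, t.rotI, h.rot1, h.rot2⟩

theorem same_root (h : t.P1) (x : t.ET × Bool) : (rotP h).SameCycle (t.rv (t.vert x)) x := by
  induction hk : t.pr x using Nat.strong_induction_on generalizing x with
  | _ k ih =>
    rcases h.pr_rot x with h1 | h1
    · rw [← h1]
    · have h2 := ih (t.pr (t.rot x)) (by omega) (t.rot x) rfl
      rw [h.vert_rot] at h2
      exact Equiv.Perm.sameCycle_apply_right.1 h2

/-- The combinatorial data. -/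
abbrev data (h : t.P1) : Data t.VT t.ET where
  vert := t.vert
  len := t.len
  cr := t.cr
  toLeft := t.toLeft
  rot := rotP h
  cr_cr := h.cr_cr
  toLeft_cr := h.toLeft_cr
  rot_vert := fun x y => by
    constructor
    · exact sameCycle_inv h.vert_rot
    · intro hxy
      have h1 := same_root h x
      rw [hxy] at h1
      exact h1.symm.trans (same_root h y)

variable (t)

/-- darts -/
abbrev DT : Type := (Σ e, Fin (t.len e + 1)) × Bool

/-- number of a dart -/
def dx (d : t.DT) : ℕ := (4 * d.1.1 + d.1.2) * 2 + d.2.toNat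

/-- faces -/
abbrev FT : Type := Fin (t.f + 1)

/-- the face of a dart -/
def face (d : t.DT) : t.FT := ⟨tb t.F (t.dx d) % (t.f + 1), Nat.mod_lt _ (Nat.succ_pos _)⟩

/-- steps to the root -/
def pd (d : t.DT) : ℕ := tb t.PD (t.dx d)

/-- the root of a face -/
def rd (f : t.FT) : t.DT :=
  let k := t.RD / 256 ^ (f : ℕ) % 256
  let e : t.ET := ⟨k / 8 % (t.m + 1), Nat.mod_lt _ (Nat.succ_pos _)⟩
  (⟨e, ⟨k / 2 % 4 % (t.len e + 1), Nat.mod_lt _ (Nat.succ_pos _)⟩⟩, k % 2 == 1)

/-- the region of the edge `e` and the edge parallel to `e` -/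
def reg (e : t.ET) (f : t.FT) : Bool := (t.G / (2 ^ 64) ^ (e : ℕ)).testBit f

variable {t}

/-- parallel edges -/
def Par (e e' : t.ET) : Prop :=
  (t.vert (e, false) = t.vert (e', false) ∧ t.vert (e, true) = t.vert (e', true)) ∨
    (t.vert (e, false) = t.vert (e', true) ∧ t.vert (e, true) = t.vert (e', false))

instance (e e' : t.ET) : Decidable (Par e e') := by
  unfold Par
  infer_instance

/-- The second group of conditions. -/
structure P2 (h : t.P1) : Prop where
  face_next : ∀ d : t.DT, t.face ((data h).next d) = t.face d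
  pd_next : ∀ d : t.DT, d = t.rd (t.face d) ∨ t.pd ((data h).next d) < t.pd d
  face_rd : ∀ f : t.FT, t.face (t.rd f) = f
  bfs : ∀ f : t.FT, f = 0 ∨ t.face ((data h).rev (t.rd f)) < f
  euler : 2 * (t.n + 1) + ∑ e, t.len e + 2 * (t.f + 1) = 2 * (∑ e, (t.len e + 1)) + 4
  loopless : ∀ e : t.ET, t.vert (e, false) ≠ t.vert (e, true)
  simple1 : ∀ (x : Σ e, Fin (t.len e)) (b b' : Bool), t.vert (x.1, b) ≠ t.vert ((t.cr x).1, b')
  simple2 : ∀ x : Σ e, Fin (t.len e), ∀ i : Fin (t.len x.1),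
    (t.cr x).1 = (t.cr ⟨x.1, i⟩).1 → x.2 = i
  fan : ∀ e : t.ET, (∀ i j, (data h).leftEnd ⟨e, i⟩ = (data h).leftEnd ⟨e, j⟩) ∨
    (∀ i j, (data h).rightEnd ⟨e, i⟩ = (data h).rightEnd ⟨e, j⟩)
  reg_rev : ∀ e e' : t.ET, e ≠ e' → Par e e' → ∀ d : t.DT,
    ((t.reg e (t.face d) = t.reg e (t.face ((data h).rev d))) ↔ d.1.1 ≠ e ∧ d.1.1 ≠ e')
  reg_in : ∀ e e' : t.ET, e ≠ e' → Par e e' → ∃ v, v ≠ t.vert (e, false) ∧ v ≠ t.vert (e, true) ∧
    ∀ x, t.vert x = v → t.reg e (t.face ((data h).out x)) = true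
  reg_out : ∀ e e' : t.ET, e ≠ e' → Par e e' → ∃ v, v ≠ t.vert (e, false) ∧ v ≠ t.vert (e, true) ∧
    ∀ x, t.vert x = v → t.reg e (t.face ((data h).out x)) = false
  zero : t.len 0 = 0

/-- The second group of conditions. -/
def Q2 (h : t.P1) : Prop :=
  (∀ d : t.DT, t.face ((data h).next d) = t.face d) ∧
  (∀ d : t.DT, d = t.rd (t.face d) ∨ t.pd ((data h).next d) < t.pd d) ∧
  (∀ f : t.FT, t.face (t.rd f) = f) ∧
  (∀ f : t.FT, f = 0 ∨ t.face ((data h).rev (t.rd f)) < f) ∧
  (2 * (t.n + 1) + ∑ e, t.len e + 2 * (t.f + 1) = 2 * (∑ e, (t.len e + 1)) + 4) ∧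
  (∀ e : t.ET, t.vert (e, false) ≠ t.vert (e, true)) ∧
  (∀ (x : Σ e, Fin (t.len e)) (b b' : Bool), t.vert (x.1, b) ≠ t.vert ((t.cr x).1, b')) ∧
  (∀ x : Σ e, Fin (t.len e), ∀ i : Fin (t.len x.1),
    (t.cr x).1 = (t.cr ⟨x.1, i⟩).1 → x.2 = i) ∧
  (∀ e : t.ET, (∀ i j, (data h).leftEnd ⟨e, i⟩ = (data h).leftEnd ⟨e, j⟩) ∨
    (∀ i j, (data h).rightEnd ⟨e, i⟩ = (data h).rightEnd ⟨e, j⟩)) ∧
  (∀ e e' : t.ET, e ≠ e' → Par e e' → ∀ d : t.DT,
    ((t.reg e (t.face d) = t.reg e (t.face ((data h).rev d))) ↔ d.1.1 ≠ e ∧ d.1.1 ≠ e')) ∧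
  (∀ e e' : t.ET, e ≠ e' → Par e e' → ∃ v, v ≠ t.vert (e, false) ∧ v ≠ t.vert (e, true) ∧
    ∀ x, t.vert x = v → t.reg e (t.face ((data h).out x)) = true) ∧
  (∀ e e' : t.ET, e ≠ e' → Par e e' → ∃ v, v ≠ t.vert (e, false) ∧ v ≠ t.vert (e, true) ∧
    ∀ x, t.vert x = v → t.reg e (t.face ((data h).out x)) = false) ∧
  t.len 0 = 0

instance (h : t.P1) : Decidable (Q2 h) := by
  unfold Q2
  refine @instDecidableAnd _ _ ?_ (@instDecidableAnd _ _ ?_ (@instDecidableAnd _ _ ?_
    (@instDecidableAnd _ _ ?_ (@instDecidableAnd _ _ ?_ (@instDecidableAnd _ _ ?_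
    (@instDecidableAnd _ _ ?_ (@instDecidableAnd _ _ ?_ (@instDecidableAnd _ _ ?_
    (@instDecidableAnd _ _ ?_ (@instDecidableAnd _ _ ?_ (@instDecidableAnd _ _ ?_ ?_)))))))))))
  · infer_instance
  · infer_instance
  · infer_instance
  · infer_instance
  · infer_instance
  · infer_instance
  · infer_instance
  · infer_instance
  · infer_instance
  · infer_instance
  · infer_instance
  · infer_instance
  · infer_instance

theorem Q2.p2 {h : t.P1} (q : Q2 h) : P2 h := by
  obtain ⟨a1, a2, a3, a4, a5, a6, a7, a8, a9, a10, a11, a12, a13⟩ := q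
  exact ⟨a1, a2, a3, a4, a5, a6, a7, a8, a9, a10, a11, a12, a13⟩

variable {h : t.P1} (p : P2 h)

include p

theorem mk_root (d : t.DT) : (Quot.mk _ d : (data h).Walk) = Quot.mk _ (t.rd (t.face d)) := by
  induction hk : t.pd d using Nat.strong_induction_on generalizing d with
  | _ k ih =>
    rcases p.pd_next d with h1 | h1
    · exact congrArg _ h1
    · have h2 := ih (t.pd ((data h).next d)) (by omega) ((data h).next d) rfl
      rw [p.face_next] at h2
      rw [← h2]
      exact Quot.sound rfl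

theorem card_walk : Nat.card (data h).Walk = t.f + 1 := by
  have : Nat.card (data h).Walk = Nat.card t.FT := by
    refine Nat.card_congr ⟨Quot.lift t.face (fun a b (hab : (data h).next a = b) => by
      rw [← hab, p.face_next]), fun f => Quot.mk _ (t.rd f), ?_, ?_⟩
    · intro w
      induction w using Quot.ind with
      | mk d => exact (mk_root p d).symm
    · intro f
      exact p.face_rd f
  rw [this, Nat.card_eq_fintype_card, Fintype.card_fin]

theorem conn (A : Set (data h).Dart) (hn : ∀ d, (data h).next d ∈ A ↔ d ∈ A)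
    (hr : ∀ d, (data h).rev d ∈ A ↔ d ∈ A) : A = ∅ ∨ A = Set.univ := by
  have h1 : ∀ d : t.DT, d ∈ A ↔ t.rd (t.face d) ∈ A := by
    intro d
    induction hk : t.pd d using Nat.strong_induction_on generalizing d with
    | _ k ih =>
      rcases p.pd_next d with h1 | h1
      · rw [← h1]
      · have h2 := ih (t.pd ((data h).next d)) (by omega) ((data h).next d) rfl
        rw [p.face_next] at h2
        rw [← h2, hn]
  have h2 : ∀ f : t.FT, t.rd f ∈ A ↔ t.rd 0 ∈ A := by
    intro f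
    induction hk : (f : ℕ) using Nat.strong_induction_on generalizing f with
    | _ k ih =>
      rcases p.bfs f with h3 | h3
      · rw [h3]
      · have h4 := ih _ (by rw [← hk]; exact h3) (t.face ((data h).rev (t.rd f))) rfl
        rw [← h4, ← h1, hr]
  by_cases h0 : t.rd 0 ∈ A
  · right
    ext d
    simp only [Set.mem_univ, iff_true]
    exact (h1 d).2 ((h2 _).2 h0)
  · left
    ext d
    simp only [Set.mem_empty_iff_false, iff_false]
    exact fun hd => h0 ((h2 _).1 ((h1 d).1 hd))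

theorem par_of {e e' : t.ET} (hp : ({t.vert (e, false), t.vert (e, true)} : Set t.VT) =
    {t.vert (e', false), t.vert (e', true)}) : Par e e' := by
  have h1 : t.vert (e, false) ∈ ({t.vert (e', false), t.vert (e', true)} : Set t.VT) := by
    rw [← hp]; simp
  have h2 : t.vert (e, true) ∈ ({t.vert (e', false), t.vert (e', true)} : Set t.VT) := by
    rw [← hp]; simp
  simp only [Set.mem_insert_iff, Set.mem_singleton_iff] at h1 h2
  rcases h1 with h1 | h1 <;> rcases h2 with h2 | h2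
  · exact absurd (h1.trans h2.symm) (p.loopless e)
  · exact Or.inl ⟨h1, h2⟩
  · exact Or.inr ⟨h1, h2⟩
  · exact absurd (h1.trans h2.symm) (p.loopless e)

theorem good : Good (data h) where
  inc := fun v => ⟨t.rv v, h.vert_rv v⟩
  conn := conn p
  euler := by
    rw [card_walk p, Nat.card_eq_fintype_card, Nat.card_eq_fintype_card,
      Nat.card_eq_fintype_card, Fintype.card_sigma, Fintype.card_sigma, Fintype.card_fin]
    simp only [Fintype.card_fin]
    exact p.euler
  loopless := p.loopless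
  simple := by
    refine ⟨p.simple1, ?_⟩
    rintro ⟨e, i⟩ ⟨e', i'⟩ h1 h2
    dsimp only at h1
    subst h1
    have : i = i' := p.simple2 ⟨e, i⟩ i' h2
    rw [this]
  fan := by
    intro e
    rcases Nat.eq_zero_or_pos (t.len e) with h0 | h0
    · left
      refine ⟨t.vert (e, false), fun i => ?_⟩
      have := i.2
      have h3 : (data h).len e = 0 := h0
      omega
    · rcases p.fan e with h1 | h1
      · exact Or.inl ⟨(data h).leftEnd ⟨e, ⟨0, h0⟩⟩, fun i => h1 i _⟩
      · exact Or.inr ⟨(data h).rightEnd ⟨e, ⟨0, h0⟩⟩, fun i => h1 i _⟩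
  nonhom := by
    intro e e' hne hp
    have hpar := par_of p hp
    obtain ⟨v, hv1, hv2, hv3⟩ := p.reg_in e e' hne hpar
    obtain ⟨w, hw1, hw2, hw3⟩ := p.reg_out e e' hne hpar
    refine ⟨{d | t.reg e (t.face d) = true}, fun d => ?_, fun d => ?_, ⟨v, hv1, hv2, hv3⟩,
      ⟨w, hw1, hw2, fun x hx hc => ?_⟩⟩
    · change t.reg e (t.face ((data h).next d)) = true ↔ t.reg e (t.face d) = true
      rw [p.face_next]
    · have := p.reg_rev e e' hne hpar d
      change ((t.reg e (t.face d) = true) ↔ (t.reg e (t.face ((data h).rev d)) = true)) ↔ _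
      rw [← this]
      exact Bool.eq_iff_iff.symm
    · have h3 := hw3 x hx
      change t.reg e (t.face ((data h).out x)) = true at hc
      rw [h3] at hc
      exact Bool.false_ne_true hc

omit p in
theorem tight (t : Tab) (h : t.Q1) (q : Q2 h.p1) : Tight (t.n + 1) (t.m + 1) :=
  ⟨t.VT, t.ET, inferInstance, inferInstance, data h.p1, 0, good q.p2, q.p2.zero, by
    rw [Nat.card_eq_fintype_card, Fintype.card_fin], by
    rw [Nat.card_eq_fintype_card, Fintype.card_fin]⟩

end Tab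

end Pool.Agent.Helper94.FP
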